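import Pool.Agent.Y913.Bk.Siegel

/-!
Archimedean linear forms in logarithms (weak form), II: the auxiliary function.
-/

set_option autoImplicit false

namespace Pool.Agent.Y913.Bk

open Finset

/-- **the auxiliary function** (truncated form) -/
theorem exists_aux {τ : Type} [Fintype τ] [DecidableEq τ] (L0 L d H N A : ℕ) (hN : 1 ≤ N)
    (θ : τ → ℝ) (U X : ℝ) (hU : 1 ≤ U) (hθ : ∀ j, L * |θ j| * U ≤ X)
    (hA : (U ^ L0 * Real.exp X) ^ Fintype.card τ ≤ A)
    (hpig : (2 * (L0 ^ Fintype.card τ * L * H * A * N) + 1) ^ ((L0 + d) ^ Fintype.card τ) <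
      (H + 1) ^ (L0 ^ Fintype.card τ * L)) :
    ∃ G : ((τ → Fin L0) × Fin L) → ℤ, G ≠ 0 ∧ (∀ i, |G i| ≤ H) ∧
      ∀ u : τ → ℝ, (∀ j, |u j| ≤ U) →
        |∑ i, (G i : ℝ) * ∏ j, (u j ^ (i.1 j : ℕ) * Tr d ((i.2 : ℕ) * θ j * u j))| ≤
          ((L0 + d) ^ Fintype.card τ : ℕ) * (1 / N) := by
  classical
  have hcI : Fintype.card ((τ → Fin L0) × Fin L) = L0 ^ Fintype.card τ * L := by
    rw [Fintype.card_prod, Fintype.card_fun, Fintype.card_fin, Fintype.card_fin]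
  have hcK : Fintype.card (τ → Fin (L0 + d)) = (L0 + d) ^ Fintype.card τ := by
    rw [Fintype.card_fun, Fintype.card_fin]
  have hUpos : 0 < U := by linarith
  obtain ⟨G, hG, hGH, hGs⟩ := real_siegel (I := (τ → Fin L0) × Fin L) (K := τ → Fin (L0 + d))
    H N A hN
    (fun e i => ∏ j, (U ^ (e j : ℕ) * gco d (i.1 j : ℕ) ((i.2 : ℕ) * θ j) (e j : ℕ)))
    (by
      intro e i
      rw [Finset.abs_prod]
      refine le_trans ?_ hA
      rw [← Finset.card_univ, ← Finset.prod_const]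
      apply Finset.prod_le_prod (fun _ _ => abs_nonneg _)
      intro j _
      apply abs_gco_le d _ L0 (i.1 j).isLt _ U X hU
      refine le_trans ?_ (hθ j)
      rw [abs_mul, abs_of_nonneg (Nat.cast_nonneg _)]
      have h1 : ((i.2 : ℕ) : ℝ) ≤ L := by exact_mod_cast i.2.isLt.le
      have h2 := abs_nonneg (θ j)
      gcongr)
    (by rw [hcI, hcK]; exact hpig)
  refine ⟨G, hG, hGH, ?_⟩
  intro u hu
  have e1 : ∀ i : (τ → Fin L0) × Fin L,
      ∏ j, (u j ^ (i.1 j : ℕ) * Tr d ((i.2 : ℕ) * θ j * u j)) =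
      ∑ e : τ → Fin (L0 + d), (∏ j, (u j / U) ^ (e j : ℕ)) *
        ∏ j, (U ^ (e j : ℕ) * gco d (i.1 j : ℕ) ((i.2 : ℕ) * θ j) (e j : ℕ)) := by
    intro i
    have e2 : ∏ j, (u j ^ (i.1 j : ℕ) * Tr d ((i.2 : ℕ) * θ j * u j)) =
        ∏ j, ∑ e : Fin (L0 + d), gco d (i.1 j : ℕ) ((i.2 : ℕ) * θ j) (e : ℕ) * u j ^ (e : ℕ) := by
      apply Finset.prod_congr rfl
      intro j _
      exact mul_Tr_eq L0 d _ (i.1 j).isLt _ _
    rw [e2, Finset.prod_univ_sum, Fintype.piFinset_univ]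
    apply Finset.sum_congr rfl
    intro e _
    rw [← Finset.prod_mul_distrib]
    apply Finset.prod_congr rfl
    intro j _
    rw [div_pow]
    field_simp
  have e3 : ∑ i, (G i : ℝ) * ∏ j, (u j ^ (i.1 j : ℕ) * Tr d ((i.2 : ℕ) * θ j * u j)) =
      ∑ e : τ → Fin (L0 + d), (∏ j, (u j / U) ^ (e j : ℕ)) *
        ∑ i, (G i : ℝ) *
          ∏ j, (U ^ (e j : ℕ) * gco d (i.1 j : ℕ) ((i.2 : ℕ) * θ j) (e j : ℕ)) := by
    simp_rw [e1, Finset.mul_sum]
    rw [Finset.sum_comm]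
    apply Finset.sum_congr rfl
    intro e _
    apply Finset.sum_congr rfl
    intro i _
    ring
  rw [e3]
  calc _ ≤ ∑ e : τ → Fin (L0 + d), |(∏ j, (u j / U) ^ (e j : ℕ)) *
        ∑ i, (G i : ℝ) *
          ∏ j, (U ^ (e j : ℕ) * gco d (i.1 j : ℕ) ((i.2 : ℕ) * θ j) (e j : ℕ))| :=
        Finset.abs_sum_le_sum_abs _ _
    _ ≤ ∑ _e : τ → Fin (L0 + d), (1 : ℝ) / N := by
        apply Finset.sum_le_sum
        intro e _
        rw [abs_mul]
        have h1 : |∏ j, (u j / U) ^ (e j : ℕ)| ≤ 1 := by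
          rw [Finset.abs_prod]
          apply Finset.prod_le_one (fun _ _ => abs_nonneg _)
          intro j _
          rw [abs_pow, abs_div, abs_of_pos hUpos]
          apply pow_le_one₀ (by positivity)
          rw [div_le_one hUpos]
          exact hu j
        calc _ ≤ 1 * (1 / (N : ℝ)) := mul_le_mul h1 (hGs e) (abs_nonneg _) zero_le_one
          _ = 1 / N := one_mul _
    _ = _ := by
        rw [Finset.sum_const, Finset.card_univ, hcK, nsmul_eq_mul]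

end Pool.Agent.Y913.Bk
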