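import Pool.Agent.Y913.Bk.LinAlg

/-!
Archimedean linear forms in logarithms (weak form), IX: bounded representation of a vector by
small vectors.
-/

set_option autoImplicit false

namespace Pool.Agent.Y913.Bk

open Finset

theorem descent {σ : Type} [Fintype σ] [DecidableEq σ] (D : Finset (σ → ℤ)) (R : ℕ)
    (hD : ∀ v ∈ D, ∀ j, |v j| ≤ R) (b : σ → ℤ) (hbR : ∀ j, |b j| ≤ R)
    (hb : qc b ∈ Submodule.span ℚ (qc '' (D : Set (σ → ℤ)))) :
    ∃ (r : ℕ) (v : Fin r → σ → ℤ) (q : ℤ) (p : Fin r → ℤ),
      r = Module.finrank ℚ (Submodule.span ℚ (qc '' (D : Set (σ → ℤ)))) ∧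
      (∀ k, v k ∈ D) ∧ LinearIndependent ℚ (fun k => qc (v k)) ∧ q ≠ 0 ∧
      (∀ j, q * b j = ∑ k, p k * v k j) ∧
      |q| ≤ r.factorial * R ^ r ∧ ∀ k, |p k| ≤ r.factorial * R ^ r := by
  classical
  set V := Submodule.span ℚ (qc '' (D : Set (σ → ℤ))) with hV
  obtain ⟨κ, a, ha, hsp, hli⟩ := exists_linearIndependent' ℚ
    (fun v : {v // v ∈ D} => qc v.1)
  have hfin : Finite κ := hli.finite
  have : Fintype κ := Fintype.ofFinite κ
  have hrange : Set.range (fun v : {v // v ∈ D} => qc v.1) = qc '' (D : Set (σ → ℤ)) := by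
    ext z
    constructor
    · rintro ⟨v, rfl⟩
      exact ⟨v.1, v.2, rfl⟩
    · rintro ⟨v, hv, rfl⟩
      exact ⟨⟨v, hv⟩, rfl⟩
  rw [hrange] at hsp
  have hcard : Fintype.card κ = Module.finrank ℚ V := by
    rw [hV, ← hsp, finrank_span_eq_card hli]
  obtain ⟨I, hI, hIV⟩ := exists_coords V
  obtain ⟨r, hr⟩ : ∃ r, r = Module.finrank ℚ V := ⟨_, rfl⟩
  let e1 : Fin r ≃ κ := Fintype.equivOfCardEq (by rw [Fintype.card_fin, hcard, hr])
  let e2 : Fin r ≃ {j // j ∈ I} := Fintype.equivOfCardEq (by
    rw [Fintype.card_fin, Fintype.card_coe, hI, hr])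
  let v : Fin r → σ → ℤ := fun k => (a (e1 k)).1
  have hvD : ∀ k, v k ∈ D := fun k => (a (e1 k)).2
  have hvV : ∀ k, qc (v k) ∈ V := fun k =>
    Submodule.subset_span (Set.mem_image_of_mem _ (hvD k))
  have hvli : LinearIndependent ℚ (fun k => qc (v k)) := hli.comp e1 e1.injective
  let A : Matrix (Fin r) (Fin r) ℤ := fun i k => v k (e2 i).1
  let bI : Fin r → ℤ := fun i => b (e2 i).1
  -- the minor is nonzero
  have hdet : A.det ≠ 0 := by
    intro h0
    have h1 : (A.map (Int.castRingHom ℚ)).det = 0 := by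
      have h2 : (A.map (Int.castRingHom ℚ)).det = ((Int.castRingHom ℚ) A.det) :=
        (RingHom.map_det (Int.castRingHom ℚ) A).symm
      rw [h2, h0, map_zero]
    obtain ⟨c, hc0, hc⟩ := Matrix.exists_mulVec_eq_zero_iff.mpr h1
    apply hc0
    have h2 : ∑ k, c k • qc (v k) = 0 := by
      apply hIV
      · exact Submodule.sum_mem _ (fun k _ => V.smul_mem _ (hvV k))
      · intro j hj
        have h3 := congrFun hc (e2.symm ⟨j, hj⟩)
        rw [Finset.sum_apply]
        simp only [Matrix.mulVec, dotProduct, Matrix.map_apply, Pi.zero_apply] at h3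
        rw [← h3]
        apply Finset.sum_congr rfl
        intro k _
        simp only [A, Equiv.apply_symm_apply, Pi.smul_apply, smul_eq_mul, qc]
        rw [mul_comm]
        rfl
    rw [Fintype.linearIndependent_iff] at hvli
    funext k
    exact hvli c h2 k
  refine ⟨r, v, A.det, A.cramer bI, hr, hvD, hvli, hdet, ?_, ?_, ?_⟩
  · -- the relation
    have h1 : qc (A.det • b - ∑ k, A.cramer bI k • v k) = 0 := by
      have hsum : qc (∑ k, A.cramer bI k • v k) = ∑ k, ((A.cramer bI k : ℤ) : ℚ) • qc (v k) := by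
        have : ∀ s : Finset (Fin r), qc (∑ k ∈ s, A.cramer bI k • v k) =
            ∑ k ∈ s, ((A.cramer bI k : ℤ) : ℚ) • qc (v k) := by
          intro s
          induction s using Finset.induction_on with
          | empty => simp [qc_zero]
          | insert k s hk ih => rw [Finset.sum_insert hk, Finset.sum_insert hk, qc_add, ih, qc_zsmul]
        exact this _
      apply hIV
      · rw [qc_sub, qc_zsmul, hsum]
        exact V.sub_mem (V.smul_mem _ hb) (Submodule.sum_mem _ (fun k _ => V.smul_mem _ (hvV k)))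
      · intro j hj
        have h3 := congrFun (Matrix.mulVec_cramer A bI) (e2.symm ⟨j, hj⟩)
        simp only [Matrix.mulVec, dotProduct, A, bI, Equiv.apply_symm_apply, Pi.smul_apply,
          smul_eq_mul] at h3
        simp only [qc, Pi.sub_apply, Pi.smul_apply, smul_eq_mul, Finset.sum_apply]
        have h4 : (A.det * b j - ∑ k, A.cramer bI k * v k j : ℤ) = 0 := by
          have h5 : ∑ k, A.cramer bI k * v k j = A.det * b j := by
            rw [← h3]
            apply Finset.sum_congr rfl
            intro k _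
            rw [mul_comm]
          rw [h5, sub_self]
        exact_mod_cast h4
    have h2 : A.det • b - ∑ k, A.cramer bI k • v k = 0 := qc_inj (by rw [h1, qc_zero])
    intro j
    have h3 := congrFun h2 j
    simp only [Pi.sub_apply, Pi.smul_apply, smul_eq_mul, Finset.sum_apply, Pi.zero_apply] at h3
    linarith
  · have h1 := Matrix.det_le (A := A) (abv := AbsoluteValue.abs) (x := (R : ℤ))
      (fun i j => hD _ (hvD j) _)
    rw [Fintype.card_fin, nsmul_eq_mul] at h1
    exact h1
  · intro k
    rw [Matrix.cramer_apply]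
    have h1 := Matrix.det_le (A := A.updateCol k bI) (abv := AbsoluteValue.abs) (x := (R : ℤ))
      (by
        intro i j
        rw [Matrix.updateCol_apply]
        split_ifs
        · exact hbR _
        · exact hD _ (hvD j) _)
    rw [Fintype.card_fin, nsmul_eq_mul] at h1
    exact h1

end Pool.Agent.Y913.Bk
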