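import Mathlib

/-!
Archimedean linear forms in logarithms (weak form), IV: some linear algebra over the rationals.
-/

set_option autoImplicit false

namespace Pool.Agent.Y913.Bk

open Finset

/-- cast of an integer vector -/
def qc {σ : Type} (s : σ → ℤ) : σ → ℚ := fun j => (s j : ℚ)

lemma qc_add {σ : Type} (s t : σ → ℤ) : qc (s + t) = qc s + qc t := by
  funext j; simp [qc]

lemma qc_sub {σ : Type} (s t : σ → ℤ) : qc (s - t) = qc s - qc t := by
  funext j; simp [qc]

lemma qc_zero {σ : Type} : qc (0 : σ → ℤ) = 0 := by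
  funext j; simp [qc]

lemma qc_nsmul {σ : Type} (n : ℕ) (s : σ → ℤ) : qc (n • s) = (n : ℚ) • qc s := by
  funext j; simp [qc]

lemma qc_zsmul {σ : Type} (n : ℤ) (s : σ → ℤ) : qc (n • s) = (n : ℚ) • qc s := by
  funext j; simp [qc]

lemma qc_inj {σ : Type} {s t : σ → ℤ} (h : qc s = qc t) : s = t := by
  funext j
  have := congrFun h j
  simpa [qc] using this

/-- coordinates which determine the elements of a subspace -/
theorem exists_coords {σ : Type} [Fintype σ] [DecidableEq σ] (V : Submodule ℚ (σ → ℚ)) :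
    ∃ I : Finset σ, I.card = Module.finrank ℚ V ∧ ∀ v ∈ V, (∀ j ∈ I, v j = 0) → v = 0 := by
  classical
  let f : σ → Module.Dual ℚ V := fun j => (LinearMap.proj j : (σ → ℚ) →ₗ[ℚ] ℚ).comp V.subtype
  obtain ⟨κ, a, ha, hsp, hli⟩ := exists_linearIndependent' ℚ f
  have hfin : Finite κ := hli.finite
  have : Fintype κ := Fintype.ofFinite κ
  have hker : ∀ v : V, (∀ k, f (a k) v = 0) → v = 0 := by
    intro v hv
    have h1 : ∀ j, f j v = 0 := by
      intro j
      have h2 : f j ∈ Submodule.span ℚ (Set.range (f ∘ a)) := by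
        rw [hsp]
        exact Submodule.subset_span ⟨j, rfl⟩
      refine Submodule.span_induction (p := fun g _ => g v = 0) ?_ ?_ ?_ ?_ h2
      · rintro _ ⟨k, rfl⟩
        exact hv k
      · simp
      · intro g g' _ _ hg hg'
        rw [LinearMap.add_apply, hg, hg', add_zero]
      · intro c g _ hg
        rw [LinearMap.smul_apply, hg, smul_zero]
    apply Subtype.ext
    funext j
    exact h1 j
  refine ⟨Finset.univ.image a, ?_, ?_⟩
  · rw [Finset.card_image_of_injective _ ha, Finset.card_univ]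
    apply le_antisymm
    · have := hli.fintype_card_le_finrank
      rwa [Subspace.dual_finrank_eq] at this
    · let F : V →ₗ[ℚ] (κ → ℚ) := LinearMap.pi (fun k => f (a k))
      have hF : Function.Injective F := by
        rw [← LinearMap.ker_eq_bot, LinearMap.ker_eq_bot']
        intro v hv
        apply hker
        intro k
        exact congrFun hv k
      have := LinearMap.finrank_le_finrank_of_injective hF
      rwa [Module.finrank_fintype_fun_eq_card] at this
  · intro v hv h
    have := hker ⟨v, hv⟩ (fun k => h (a k) (Finset.mem_image_of_mem a (Finset.mem_univ k)))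
    exact congrArg Subtype.val this

theorem exists_mul_mem {σ : Type} (M : AddSubgroup (σ → ℤ)) (x : σ → ℚ)
    (hx : x ∈ Submodule.span ℚ (qc '' (M : Set (σ → ℤ)))) :
    ∃ N : ℕ, 0 < N ∧ ∃ v ∈ M, qc v = (N : ℚ) • x := by
  refine Submodule.span_induction (p := fun x _ => ∃ N : ℕ, 0 < N ∧ ∃ v ∈ M, qc v = (N : ℚ) • x)
    ?_ ?_ ?_ ?_ hx
  · rintro _ ⟨v, hv, rfl⟩
    exact ⟨1, one_pos, v, hv, by simp⟩
  · exact ⟨1, one_pos, 0, M.zero_mem, by simp [qc_zero]⟩
  · rintro x y _ _ ⟨N, hN, v, hv, hv'⟩ ⟨N', hN', w, hw, hw'⟩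
    refine ⟨N * N', Nat.mul_pos hN hN', N' • v + N • w,
      M.add_mem (M.nsmul_mem hv _) (M.nsmul_mem hw _), ?_⟩
    rw [qc_add, qc_nsmul, qc_nsmul, hv', hw', smul_add, smul_smul, smul_smul]
    push_cast
    rw [mul_comm (N' : ℚ)]
  · rintro c x _ ⟨N, hN, v, hv, hv'⟩
    refine ⟨N * c.den, Nat.mul_pos hN c.den_pos, c.num • v, M.zsmul_mem hv _, ?_⟩
    rw [qc_zsmul, hv', smul_smul, smul_smul]
    congr 1
    push_cast
    have h1 : (c.den : ℚ) * c = c.num := by
      rw [mul_comm]
      exact Rat.mul_den_eq_num c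
    rw [mul_assoc, h1]
    ring

theorem exists_mul_mem_fin {σ ι : Type} [Fintype ι] [DecidableEq ι] (M : AddSubgroup (σ → ℤ))
    (x : ι → σ → ℚ) (hx : ∀ i, x i ∈ Submodule.span ℚ (qc '' (M : Set (σ → ℤ)))) :
    ∃ N : ℕ, 0 < N ∧ ∀ i, ∃ v ∈ M, qc v = (N : ℚ) • x i := by
  choose N hN v hv hv' using fun i => exists_mul_mem M (x i) (hx i)
  refine ⟨∏ i, N i, Finset.prod_pos (fun i _ => hN i), fun i =>
    ⟨(∏ j ∈ Finset.univ.erase i, N j) • v i, M.nsmul_mem (hv i) _, ?_⟩⟩
  rw [qc_nsmul, hv', smul_smul]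
  congr 1
  rw [← Finset.mul_prod_erase _ _ (Finset.mem_univ i)]
  push_cast
  ring

/-- integer points of a box in a subspace -/
theorem card_le_of_affine {σ : Type} [Fintype σ] [DecidableEq σ] (S : ℕ) (C : Finset (σ → ℤ))
    (s0 : σ → ℤ) (V : Submodule ℚ (σ → ℚ))
    (hC : ∀ s ∈ C, (∀ j, 0 ≤ s j ∧ s j < S) ∧ qc (s - s0) ∈ V) :
    C.card ≤ S ^ Module.finrank ℚ V := by
  classical
  obtain ⟨I, hI, hV⟩ := exists_coords V
  have h1 : C.card ≤ (Fintype.piFinset (fun _ : {j // j ∈ I} => Finset.range S)).card := by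
    apply Finset.card_le_card_of_injOn (fun s => fun j : {j // j ∈ I} => (s j.1).toNat)
    · intro s hs
      rw [Finset.mem_coe, Fintype.mem_piFinset]
      intro j
      rw [Finset.mem_range]
      have := (hC s hs).1 j.1
      show (s j.1).toNat < S
      omega
    · intro s hs t ht hst
      have h2 : qc (s - t) ∈ V := by
        have e : s - t = (s - s0) - (t - s0) := by abel
        rw [e, qc_sub]
        exact V.sub_mem (hC s hs).2 (hC t ht).2
      have h3 := hV _ h2 (by
        intro j hj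
        have h4 := congrFun hst ⟨j, hj⟩
        simp only at h4
        have h5 := (hC s hs).1 j
        have h6 := (hC t ht).1 j
        have h7 : s j = t j := by omega
        simp [qc, h7])
      have h4 : s - t = 0 := qc_inj (by rw [h3, qc_zero])
      exact sub_eq_zero.mp h4
  refine h1.trans ?_
  rw [Fintype.card_piFinset, Finset.prod_const, Finset.card_univ, Finset.card_range,
    Fintype.card_coe, hI]

end Pool.Agent.Y913.Bk
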