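import Pool.Agent.Y913.Bk.Zest

/-!
Archimedean linear forms in logarithms (weak form), VII: the obstruction subgroup.
-/

set_option autoImplicit false

namespace Pool.Agent.Y913.Bk

open Finset MvPolynomial Pool.Agent.H364R2 Pool.Agent.H301R2.ZG

variable {τ : Type} [Fintype τ] {x y : Option τ → ℕ} (hx : ∀ j, 1 ≤ x j) (hy : ∀ j, 1 ≤ y j)
  (b : Option τ → ℤ)

lemma exists_list_lift {α β : Type} (f : α → β) (B : Finset α) [DecidableEq β] (gs : List β)
    (h : ∀ g ∈ gs, g ∈ B.image f) : ∃ ss : List α, ss.map f = gs ∧ ∀ s ∈ ss, s ∈ B := by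
  induction gs with
  | nil => exact ⟨[], rfl, by simp⟩
  | cons g gs ih =>
    obtain ⟨ss, h1, h2⟩ := ih (fun g' hg' => h g' (List.mem_cons_of_mem _ hg'))
    obtain ⟨s, hs, rfl⟩ := Finset.mem_image.mp (h g List.mem_cons_self)
    refine ⟨s :: ss, by rw [List.map_cons, h1], ?_⟩
    intro t ht
    rcases List.mem_cons.mp ht with rfl | ht
    · exact hs
    · exact h2 t ht

omit [Fintype τ] in
lemma list_sum_bounds {S : ℕ} (ss : List (Option τ → ℤ))
    (h : ∀ s ∈ ss, ∀ j, 0 ≤ s j ∧ s j < S) (j : Option τ) :
    0 ≤ ss.sum j ∧ ss.sum j ≤ ss.length * ((S : ℤ) - 1) := by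
  induction ss with
  | nil => simp
  | cons s ss ih =>
    have h1 := ih (fun t ht => h t (List.mem_cons_of_mem _ ht))
    have h2 := h s List.mem_cons_self j
    rw [List.sum_cons, Pi.add_apply, List.length_cons]
    push_cast
    constructor
    · linarith [h1.1, h2.1]
    · have : s j ≤ (S : ℤ) - 1 := by omega
      linarith [h1.2]

include hx hy in
theorem obstruct [DecidableEq τ] {L0 L S : ℕ} (hL0 : 1 ≤ L0) (hL : 1 ≤ L) (hS : 1 ≤ S)
    (G : ((τ → Fin L0) × Fin L) → ℤ) (hG : G ≠ 0) (hb0 : b none ≠ 0)
    (hind : ∀ s : Option τ → ℤ, ∏ j, ((x j : ℝ) / (y j : ℝ)) ^ (s j) = 1 → s = 0)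
    (hvan : ∀ s : Option τ → ℕ, (∀ j, s j ≤ (Fintype.card τ + 1) * S) →
      ∑ i, (G i : ℝ) * ((∏ j, (uu b (fun j => (s j : ℤ)) j : ℝ) ^ (i.1 j : ℕ)) *
        (∏ j, ((x j : ℝ) / y j) ^ s j) ^ (i.2 : ℕ)) = 0)
    (hSb : ∀ k ≤ Fintype.card τ,
      2 ^ ((Fintype.card τ + 2) * (Fintype.card τ + 1)) * (L * L0 ^ k) < S ^ (k + 1)) :
    ∃ D : Finset (Option τ → ℤ), (∀ v ∈ D, ∀ j, |v j| < S) ∧
      qc b ∈ Submodule.span ℚ (qc '' (D : Set (Option τ → ℤ))) ∧
      Module.finrank ℚ (Submodule.span ℚ (qc '' (D : Set (Option τ → ℤ)))) ≤ Fintype.card τ := by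
  classical
  set B : Finset (Option τ → ℤ) := Fintype.piFinset (fun _ => Finset.Ico (0 : ℤ) S) with hB
  have hBmem : ∀ s, s ∈ B ↔ ∀ j, 0 ≤ s j ∧ s j < S := by
    intro s
    rw [hB, Fintype.mem_piFinset]
    simp only [Finset.mem_Ico]
  have hBcard : B.card = S ^ (Fintype.card τ + 1) := by
    rw [hB, Fintype.card_piFinset, Finset.prod_const, Finset.card_univ, Fintype.card_option,
      Int.card_Ico]
    simp
  obtain ⟨P, hP, hPbot, hone, hstab, hhom, hbound⟩ :=
    zero_estimate_grp (ad (τ := τ)) (l := 0) (fun k => k.elim0) (B.image (zt x y b)) 0 (polyF G)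
      (fun j : Option τ => j.elim L (fun _ => L0))
      (by
        intro j
        rcases j with _ | k
        · exact hL
        · exact hL0)
      (by
        intro g hg
        obtain ⟨s, _, rfl⟩ := Finset.mem_image.mp hg
        exact isG_zt hx hy b s)
      (polyF_ne_zero hG) (polyF_mem_box G) (by
        intro ks gs hks hgs hmem
        have h0 : ks = [] := by
          cases ks with
          | nil => rfl
          | cons k _ => exact k.elim0
        subst h0
        simp only [derIter]
        obtain ⟨ss, hss, hssB⟩ := exists_list_lift (zt x y b) B gs hmem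
        rw [← hss, prodG_zt hx hy, eval_polyF]
        have hlen : ss.length ≤ Fintype.card τ + 1 := by
          rw [← hss, List.length_map, Fintype.card_option] at hgs
          exact hgs
        have hbd := list_sum_bounds ss (S := S) (fun s hs => (hBmem s).mp (hssB s hs))
        have h1 := hvan (fun j => (ss.sum j).toNat) (by
          intro j
          have h2 := hbd j
          have h3 : (ss.length : ℤ) * ((S : ℤ) - 1) ≤ ((Fintype.card τ + 1 : ℕ) : ℤ) * (S : ℤ) := by
            apply mul_le_mul
            · exact_mod_cast hlen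
            · linarith
            · have : (1 : ℤ) ≤ S := by exact_mod_cast hS
              linarith
            · positivity
          have h4 : ss.sum j ≤ (((Fintype.card τ + 1) * S : ℕ) : ℤ) := by
            push_cast at h3 ⊢
            linarith
          show (ss.sum j).toNat ≤ _
          omega)
        have h2 : (fun j => (((ss.sum j).toNat : ℕ) : ℤ)) = ss.sum := by
          funext j
          exact Int.toNat_of_nonneg (hbd j).1
        rw [h2] at h1
        have h3 := congrArg (fun r : ℝ => (r : ℂ)) h1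
        push_cast at h3
        rw [← h3]
        apply Finset.sum_congr rfl
        intro i _
        congr 2
        rw [zt_none]
        congr 1
        apply Finset.prod_congr rfl
        intro j _
        rw [← zpow_natCast, Int.toNat_of_nonneg (hbd j).1])
  let f : (Option τ → ℤ) → Ideal (MvPolynomial (Option τ) ℂ) := fun s => trI ad (zt x y b s) P
  -- the number of classes
  have hclass : ∀ E : Finset (Option τ), Indep P (E : Set (Option τ)) →
      (B.image f).card ≤ 2 ^ ((Fintype.card τ + 2) * (Fintype.card τ + 1)) *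
        ∏ j ∈ Finset.univ \ E, (j.elim L (fun _ => L0) : ℕ) := by
    intro E hE
    have hsec : ∀ J ∈ B.image f, ∃ s ∈ B, f s = J := fun J hJ => by
      obtain ⟨s, hs, h⟩ := Finset.mem_image.mp hJ
      exact ⟨s, hs, h⟩
    choose! sec hsecB hsecf using hsec
    have hinj1 : Set.InjOn (fun J => zt x y b (sec J)) (B.image f : Set _) := by
      intro J hJ J' hJ' h
      simp only at h
      rw [← hsecf J hJ, ← hsecf J' hJ']
      show trI ad (zt x y b (sec J)) P = trI ad (zt x y b (sec J')) P
      rw [h]
    have h1 := hbound E hE ((B.image f).image (fun J => zt x y b (sec J))) (by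
      intro g hg
      obtain ⟨J, hJ, rfl⟩ := Finset.mem_image.mp hg
      exact Finset.mem_image_of_mem _ (hsecB J hJ)) (by
      intro g hg g' hg' h
      obtain ⟨J, hJ, rfl⟩ := Finset.mem_image.mp hg
      obtain ⟨J', hJ', rfl⟩ := Finset.mem_image.mp hg'
      have h2 : f (sec J) = f (sec J') := h
      rw [hsecf J hJ, hsecf J' hJ'] at h2
      rw [h2]) 0 (fun k => k.elim0) (fun k => k.elim0) (by
      intro c _
      funext k
      exact k.elim0)
    rw [Finset.card_image_of_injOn hinj1, pow_zero, mul_one, Fintype.card_option] at h1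
    exact h1
  -- the largest class
  have hBne : B.Nonempty := by
    rw [← Finset.card_pos, hBcard]
    exact Nat.pow_pos (by omega)
  obtain ⟨s0, hs0, hmax⟩ := Finset.exists_max_image B
    (fun s => (B.filter (fun t => f t = f s)).card) hBne
  set C : Finset (Option τ → ℤ) := B.filter (fun t => f t = f s0) with hC
  have hBC : B.card ≤ (B.image f).card * C.card := by
    rw [Finset.card_eq_sum_card_image f B]
    calc ∑ J ∈ B.image f, (B.filter (fun t => f t = J)).card ≤ ∑ _J ∈ B.image f, C.card := by
          apply Finset.sum_le_sum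
          intro J hJ
          obtain ⟨s, hs, rfl⟩ := Finset.mem_image.mp hJ
          exact hmax s hs
      _ = _ := by rw [Finset.sum_const, smul_eq_mul]
  refine ⟨C.image (fun s => s - s0), ?_, ?_⟩
  · intro v hv j
    obtain ⟨s, hs, rfl⟩ := Finset.mem_image.mp hv
    have h1 := (hBmem s).mp (Finset.mem_filter.mp hs).1 j
    have h2 := (hBmem s0).mp hs0 j
    rw [Pi.sub_apply, abs_lt]
    constructor <;> omega
  set V := Submodule.span ℚ (qc '' ((C.image (fun s => s - s0) : Finset (Option τ → ℤ)) :
    Set (Option τ → ℤ))) with hV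
  have hVK : V ≤ Submodule.span ℚ (qc '' (Kst hx hy b P : Set (Option τ → ℤ))) := by
    apply Submodule.span_mono
    apply Set.image_mono
    intro v hv
    rw [Finset.mem_coe, Finset.mem_image] at hv
    obtain ⟨s, hs, rfl⟩ := hv
    have h1 : trI ad (zt x y b s) P = trI ad (zt x y b s0) P := (Finset.mem_filter.mp hs).2
    show trI ad (zt x y b (s - s0)) P = P
    have e1 : s - s0 = -s0 + s := by abel
    rw [e1, ← gmul_zt hx hy, ← trI_trI, h1, trI_trI, gmul_zt hx hy, neg_add_cancel, zt_zero,
      trI_gone]
  have hCcard : C.card ≤ S ^ Module.finrank ℚ V := by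
    apply card_le_of_affine S C s0 V
    intro s hs
    refine ⟨(hBmem s).mp (Finset.mem_filter.mp hs).1, ?_⟩
    apply Submodule.subset_span
    exact Set.mem_image_of_mem _ (Finset.mem_coe.mpr (Finset.mem_image_of_mem _ hs))
  have hr1 : Module.finrank ℚ V ≤ Fintype.card τ + 1 := by
    have := Submodule.finrank_le V
    rwa [Module.finrank_fintype_fun_eq_card, Fintype.card_option] at this
  have hr2 : Module.finrank ℚ V ≤ Fintype.card τ := by
    by_contra hcon
    apply hPbot
    apply eq_bot_of_full hx hy b hone hb0 hind V hVK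
    rw [Fintype.card_option]
    omega
  refine ⟨?_, hr2⟩
  by_contra hbV
  obtain ⟨I, hI, hIind⟩ := indep_of_notMem hx hy b hone hb0 V hVK hbV
  have h1 := hclass _ hIind
  have h2 : ∏ j ∈ Finset.univ \ (I.image some : Finset (Option τ)),
      (j.elim L (fun _ => L0) : ℕ) = L * L0 ^ (Fintype.card τ - Module.finrank ℚ V) := by
    have e1 : Finset.univ \ (I.image some : Finset (Option τ)) =
        insert none ((Finset.univ \ I).image some) := by
      ext j
      rcases j with _ | k
      · simp
      · simp
    rw [e1, Finset.prod_insert (by simp), Option.elim_none]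
    congr 1
    rw [Finset.prod_image (fun a _ a' _ h => Option.some_injective _ h)]
    simp only [Option.elim_some]
    rw [Finset.prod_const, Finset.card_sdiff_of_subset (Finset.subset_univ I), Finset.card_univ, hI]
  rw [h2] at h1
  have h3 := hSb (Fintype.card τ - Module.finrank ℚ V) (Nat.sub_le _ _)
  have h4 : S ^ (Fintype.card τ + 1) <
      S ^ (Fintype.card τ - Module.finrank ℚ V + 1) * S ^ Module.finrank ℚ V := by
    rw [← hBcard]
    calc B.card ≤ (B.image f).card * C.card := hBC
      _ ≤ (2 ^ ((Fintype.card τ + 2) * (Fintype.card τ + 1)) *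
          (L * L0 ^ (Fintype.card τ - Module.finrank ℚ V))) * S ^ Module.finrank ℚ V :=
          Nat.mul_le_mul h1 hCcard
      _ < _ := Nat.mul_lt_mul_of_pos_right h3 (Nat.pow_pos (by omega))
  rw [← pow_add] at h4
  have h5 : Fintype.card τ - Module.finrank ℚ V + 1 + Module.finrank ℚ V = Fintype.card τ + 1 := by
    omega
  rw [h5] at h4
  exact lt_irrefl _ h4

end Pool.Agent.Y913.Bk
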