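import Pool.Agent.Y913.Bk.AuxF
import Pool.Agent.Y913.Arch

/-!
Archimedean linear forms in logarithms (weak form), III: the auxiliary polynomial vanishes.
-/

set_option autoImplicit false

namespace Pool.Agent.Y913.Bk

open Finset

/-- the linear form in logarithms of the rational numbers `x j / y j` -/
noncomputable def Lam {σ : Type} [Fintype σ] (x y : σ → ℕ) (b : σ → ℤ) : ℝ :=
  ∑ j, (b j : ℝ) * (Real.log (x j) - Real.log (y j))

/-- the additive coordinates of the points -/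
def uu {τ : Type} (b : Option τ → ℤ) (s : Option τ → ℤ) (i : τ) : ℤ :=
  b none * s (some i) - b (some i) * s none

lemma abs_log_sub_log_le {Z x y : ℕ} (hx : 1 ≤ x ∧ x ≤ Z) (hy : 1 ≤ y ∧ y ≤ Z) :
    |Real.log x - Real.log y| ≤ Real.log Z := by
  have h1 : 0 ≤ Real.log x := Real.log_nonneg (by exact_mod_cast hx.1)
  have h2 : 0 ≤ Real.log y := Real.log_nonneg (by exact_mod_cast hy.1)
  have h3 : Real.log x ≤ Real.log Z := Real.log_le_log (by exact_mod_cast hx.1)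
    (by exact_mod_cast hx.2)
  have h4 : Real.log y ≤ Real.log Z := Real.log_le_log (by exact_mod_cast hy.1)
    (by exact_mod_cast hy.2)
  rw [abs_le]
  constructor <;> linarith

/-- the monomial values -/
lemma int_value {τ : Type} [Fintype τ] [DecidableEq τ] {L0 L : ℕ} (hL : 1 ≤ L)
    (G : ((τ → Fin L0) × Fin L) → ℤ) (x y : Option τ → ℕ) (hx : ∀ j, 1 ≤ x j) (hy : ∀ j, 1 ≤ y j)
    (u : τ → ℤ) (s : Option τ → ℕ) :
    ∃ Q : ℤ, (Q : ℝ) = (∏ j, (y j : ℝ) ^ (s j * (L - 1))) *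
      ∑ i, (G i : ℝ) * ((∏ j, (u j : ℝ) ^ (i.1 j : ℕ)) *
        (∏ j, ((x j : ℝ) / y j) ^ s j) ^ (i.2 : ℕ)) := by
  refine ⟨∑ i, G i * ((∏ j, (u j) ^ (i.1 j : ℕ)) *
    ∏ j, ((x j : ℤ) ^ (s j * (i.2 : ℕ)) * (y j : ℤ) ^ (s j * (L - 1 - (i.2 : ℕ))))), ?_⟩
  push_cast
  rw [Finset.mul_sum]
  apply Finset.sum_congr rfl
  intro i _
  have h1 : (∏ j, ((x j : ℝ) ^ (s j * (i.2 : ℕ)) * (y j : ℝ) ^ (s j * (L - 1 - (i.2 : ℕ))))) =
      (∏ j, (y j : ℝ) ^ (s j * (L - 1))) * (∏ j, ((x j : ℝ) / y j) ^ s j) ^ (i.2 : ℕ) := by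
    rw [← Finset.prod_pow, ← Finset.prod_mul_distrib]
    apply Finset.prod_congr rfl
    intro j _
    have hy0 : (y j : ℝ) ≠ 0 := by
      have := hy j
      positivity
    have h2 : s j * (L - 1) = s j * (i.2 : ℕ) + s j * (L - 1 - (i.2 : ℕ)) := by
      rw [← Nat.mul_add]
      congr 1
      have := i.2.isLt
      omega
    rw [h2, pow_add, div_pow, div_pow, ← pow_mul, ← pow_mul]
    field_simp
  rw [h1]
  ring

theorem vanish {τ : Type} [Fintype τ] [DecidableEq τ] {L0 L d H N A Z T : ℕ}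
    (hL : 1 ≤ L) (hZ : 2 ≤ Z) (hT : 1 ≤ T)
    (x y : Option τ → ℕ) (hx : ∀ j, 1 ≤ x j ∧ x j ≤ Z) (hy : ∀ j, 1 ≤ y j ∧ y j ≤ Z)
    (b : Option τ → ℤ) (hb0 : b none ≠ 0) (hb : ∀ j, |b j| ≤ |b none|)
    (U X : ℝ) (hU : U = 2 * T * |(b none : ℝ)|) (hX : L * (2 * T * Real.log Z) ≤ X)
    (hX0 : 0 ≤ X)
    (hdX : 8 * X ≤ d)
    (hA : (U ^ L0 * Real.exp X) ^ Fintype.card τ ≤ A)
    (G : ((τ → Fin L0) × Fin L) → ℤ) (hGH : ∀ i, |G i| ≤ H)
    (hGs : ∀ u : τ → ℝ, (∀ j, |u j| ≤ U) →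
        |∑ i, (G i : ℝ) * ∏ j, (u j ^ (i.1 j : ℕ) *
          Tr d ((i.2 : ℕ) * ((Real.log (x (some j)) - Real.log (y (some j))) / b none) * u j))| ≤
          ((L0 + d) ^ Fintype.card τ : ℕ) * (1 / N))
    (W : ℕ) (hW : Z ^ ((Fintype.card τ + 1) * (T * L)) ≤ W)
    (h1 : ((L0 + d) ^ Fintype.card τ : ℕ) * (1 / (N : ℝ)) * (4 * W) ≤ 1)
    (h2 : ((L0 ^ Fintype.card τ * L : ℕ) : ℝ) * (H * (Fintype.card τ * A * (U ^ L0 * (2 * (1 / 2) ^ d)))) *
      (4 * W) ≤ 1)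
    (h3 : ((L0 ^ Fintype.card τ * L : ℕ) : ℝ) * (H * ((U ^ L0) ^ Fintype.card τ * W * (2 * (L * (T * |Lam x y b|))))) *
      (4 * W) ≤ 1)
    (h3' : L * (T * |Lam x y b|) ≤ 1)
    (s : Option τ → ℕ) (hs : ∀ j, s j ≤ T) :
    ∑ i, (G i : ℝ) * ((∏ j, (uu b (fun j => (s j : ℤ)) j : ℝ) ^ (i.1 j : ℕ)) *
        (∏ j, ((x j : ℝ) / y j) ^ s j) ^ (i.2 : ℕ)) = 0 := by
  classical
  set a : Option τ → ℝ := fun j => Real.log (x j) - Real.log (y j) with ha
  set β : ℝ := (b none : ℝ) with hβ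
  have hβ0 : β ≠ 0 := by rw [hβ]; exact_mod_cast hb0
  have hβ1 : 1 ≤ |β| := by
    rw [hβ, ← Int.cast_abs]
    exact_mod_cast Int.one_le_abs hb0
  have hβpos : 0 < |β| := by linarith
  have hTr : (1 : ℝ) ≤ T := by exact_mod_cast hT
  have hU1 : 1 ≤ U := by
    rw [hU]
    nlinarith
  have hUpos : 0 < U := by linarith
  have hZ1 : (1 : ℝ) ≤ Z := by exact_mod_cast (by omega : 1 ≤ Z)
  have hlogZ : 0 ≤ Real.log Z := Real.log_nonneg hZ1
  set u : τ → ℝ := fun j => (uu b (fun j => (s j : ℤ)) j : ℝ) with hu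
  have hub : ∀ j, |u j| ≤ U := by
    intro j
    simp only [hu, uu]
    push_cast
    have e1 : |(b (some j) : ℝ)| ≤ |β| := by
      rw [hβ, ← Int.cast_abs, ← Int.cast_abs]
      exact_mod_cast hb (some j)
    have e2 : ((s (some j) : ℕ) : ℝ) ≤ T := by exact_mod_cast hs (some j)
    have e3 : ((s none : ℕ) : ℝ) ≤ T := by exact_mod_cast hs none
    calc |β * (s (some j) : ℝ) - (b (some j) : ℝ) * (s none : ℝ)|
        ≤ |β * (s (some j) : ℝ)| + |(b (some j) : ℝ) * (s none : ℝ)| := abs_sub _ _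
      _ = |β| * (s (some j) : ℝ) + |(b (some j) : ℝ)| * (s none : ℝ) := by
          rw [abs_mul, abs_mul, abs_of_nonneg (Nat.cast_nonneg (s (some j)) : (0 : ℝ) ≤ _),
            abs_of_nonneg (Nat.cast_nonneg (s none) : (0 : ℝ) ≤ _)]
      _ ≤ |β| * T + |β| * T := by
          have := abs_nonneg (b (some j) : ℝ)
          have h4 : (0 : ℝ) ≤ (s none : ℝ) := Nat.cast_nonneg _
          gcongr
      _ = U := by rw [hU]; ring
  set E : ℝ := ∏ j, ((x j : ℝ) / y j) ^ s j with hE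
  have hxy : ∀ j, 0 < (x j : ℝ) / y j := by
    intro j
    have h4 := (hx j).1
    have h5 := (hy j).1
    positivity
  have hEpos : 0 < E := Finset.prod_pos (fun j _ => pow_pos (hxy j) _)
  have hlogE : Real.log E = ∑ j, (s j : ℝ) * a j := by
    rw [hE, Real.log_prod (fun j _ => (pow_pos (hxy j) _).ne')]
    apply Finset.sum_congr rfl
    intro j _
    rw [Real.log_pow, Real.log_div]
    · have := (hx j).1; positivity
    · have := (hy j).1; positivity
  have hLamdef : Lam x y b = ∑ j, (b j : ℝ) * a j := rfl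
  -- the key identity
  have hkey : ∑ j, a (some j) / β * u j = Real.log E - (s none : ℝ) * Lam x y b / β := by
    rw [hlogE, hLamdef, Fintype.sum_option, Fintype.sum_option, ← hβ]
    have e1 : ∀ j : τ, a (some j) / β * u j = (s (some j) : ℝ) * a (some j) -
        (s none : ℝ) / β * ((b (some j) : ℝ) * a (some j)) := by
      intro j
      simp only [hu, uu]
      push_cast
      rw [← hβ]
      field_simp
    rw [Finset.sum_congr rfl (fun j _ => e1 j), Finset.sum_sub_distrib, ← Finset.mul_sum]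
    field_simp
    ring
  have hEk : ∀ k : ℕ, k < L → E ^ k ≤ W := by
    intro k hk
    have hE1 : E ≤ (Z : ℝ) ^ ((Fintype.card τ + 1) * T) := by
      rw [hE, mul_comm (Fintype.card τ + 1) T, pow_mul, ← Fintype.card_option,
        ← Finset.card_univ, ← Finset.prod_const]
      apply Finset.prod_le_prod (fun j _ => (pow_pos (hxy j) _).le)
      intro j _
      have e1 : (x j : ℝ) / y j ≤ Z := by
        have h4 : (1 : ℝ) ≤ y j := by exact_mod_cast (hy j).1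
        have h5 : (x j : ℝ) ≤ Z := by exact_mod_cast (hx j).2
        rw [div_le_iff₀ (by linarith)]
        nlinarith
      calc ((x j : ℝ) / y j) ^ s j ≤ (Z : ℝ) ^ s j := pow_le_pow_left₀ (hxy j).le e1 _
        _ ≤ (Z : ℝ) ^ T := pow_le_pow_right₀ hZ1 (hs j)
    calc E ^ k ≤ ((Z : ℝ) ^ ((Fintype.card τ + 1) * T)) ^ k := pow_le_pow_left₀ hEpos.le hE1 _
      _ = (Z : ℝ) ^ ((Fintype.card τ + 1) * T * k) := by rw [← pow_mul]
      _ ≤ (Z : ℝ) ^ ((Fintype.card τ + 1) * (T * L)) := by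
          apply pow_le_pow_right₀ hZ1
          rw [mul_assoc]
          exact Nat.mul_le_mul_left _ (Nat.mul_le_mul_left _ hk.le)
      _ ≤ W := by exact_mod_cast hW
  have hWpos : (0 : ℝ) < W := by
    have : 0 < W := lt_of_lt_of_le (Nat.pow_pos (by omega)) hW
    exact_mod_cast this
  have hGr : ∀ i, |(G i : ℝ)| ≤ H := by
    intro i
    rw [← Int.cast_abs]
    exact_mod_cast hGH i
  have hcI : (Finset.univ : Finset ((τ → Fin L0) × Fin L)).card = L0 ^ Fintype.card τ * L := by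
    rw [Finset.card_univ, Fintype.card_prod, Fintype.card_fun, Fintype.card_fin, Fintype.card_fin]
  -- bounds for the arguments
  have harg : ∀ (i : (τ → Fin L0) × Fin L) (j : τ), |((i.2 : ℕ) : ℝ) * (a (some j) / β) * u j| ≤ X := by
    intro i j
    rw [abs_mul, abs_mul, abs_div, abs_of_nonneg (Nat.cast_nonneg _)]
    have e1 : ((i.2 : ℕ) : ℝ) ≤ L := by exact_mod_cast i.2.isLt.le
    have e2 : |a (some j)| ≤ Real.log Z := abs_log_sub_log_le (hx _) (hy _)
    calc ((i.2 : ℕ) : ℝ) * (|a (some j)| / |β|) * |u j| ≤ L * (Real.log Z / |β|) * U := by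
          have := hub j
          have h4 := abs_nonneg (a (some j))
          have h5 := abs_nonneg (u j)
          gcongr
      _ = L * (2 * T * Real.log Z) := by
          rw [hU]
          field_simp
      _ ≤ X := hX
  have hpowu : ∀ (i : (τ → Fin L0) × Fin L) (j : τ), |u j ^ (i.1 j : ℕ)| ≤ U ^ L0 := by
    intro i j
    rw [abs_pow]
    calc |u j| ^ (i.1 j : ℕ) ≤ U ^ (i.1 j : ℕ) := pow_le_pow_left₀ (abs_nonneg _) (hub j) _
      _ ≤ U ^ L0 := pow_le_pow_right₀ hU1 (i.1 j).isLt.le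
  have hM1 : 1 ≤ U ^ L0 * Real.exp X := by
    have e1 : 1 ≤ U ^ L0 := one_le_pow₀ hU1
    have e2 : 1 ≤ Real.exp X := Real.one_le_exp hX0
    nlinarith
  have hd1 : (0 : ℝ) ≤ U ^ L0 * (2 * (1 / 2) ^ d) := by positivity
  -- first comparison
  have hc1 : ∀ i : (τ → Fin L0) × Fin L,
      |∏ j, (u j ^ (i.1 j : ℕ) * Real.exp ((i.2 : ℕ) * (a (some j) / β) * u j)) -
        ∏ j, (u j ^ (i.1 j : ℕ) * Tr d ((i.2 : ℕ) * (a (some j) / β) * u j))| ≤
      Fintype.card τ * A * (U ^ L0 * (2 * (1 / 2) ^ d)) := by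
    intro i
    have e1 := abs_prod_sub_prod_le (Finset.univ : Finset τ)
      (fun j => u j ^ (i.1 j : ℕ) * Real.exp ((i.2 : ℕ) * (a (some j) / β) * u j))
      (fun j => u j ^ (i.1 j : ℕ) * Tr d ((i.2 : ℕ) * (a (some j) / β) * u j))
      (U ^ L0 * Real.exp X) (U ^ L0 * (2 * (1 / 2) ^ d)) hM1
      (by
        intro j _
        rw [abs_mul, abs_of_pos (Real.exp_pos _)]
        exact mul_le_mul (hpowu i j) (Real.exp_le_exp.mpr ((le_abs_self _).trans (harg i j)))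
          (Real.exp_pos _).le (by positivity))
      (by
        intro j _
        rw [abs_mul]
        exact mul_le_mul (hpowu i j) ((abs_Tr_le _ _).trans (Real.exp_le_exp.mpr (harg i j)))
          (abs_nonneg _) (by positivity))
      (by
        intro j _
        rw [← mul_sub, abs_mul]
        apply mul_le_mul (hpowu i j) _ (abs_nonneg _) (by positivity)
        apply abs_exp_sub_Tr
        have := harg i j
        linarith)
      hd1
    rw [Finset.card_univ] at e1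
    refine e1.trans ?_
    gcongr
  -- second comparison
  have hc2 : ∀ i : (τ → Fin L0) × Fin L,
      |(∏ j, u j ^ (i.1 j : ℕ)) * E ^ (i.2 : ℕ) -
        ∏ j, (u j ^ (i.1 j : ℕ) * Real.exp ((i.2 : ℕ) * (a (some j) / β) * u j))| ≤
      (U ^ L0) ^ Fintype.card τ * W * (2 * (L * (T * |Lam x y b|))) := by
    intro i
    have e1 : ∏ j, (u j ^ (i.1 j : ℕ) * Real.exp ((i.2 : ℕ) * (a (some j) / β) * u j)) =
        (∏ j, u j ^ (i.1 j : ℕ)) * (E ^ (i.2 : ℕ) *
          Real.exp (-((i.2 : ℕ) * ((s none : ℝ) * Lam x y b / β)))) := by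
      rw [Finset.prod_mul_distrib, ← Real.exp_sum]
      congr 1
      have e2 : ∑ j, ((i.2 : ℕ) : ℝ) * (a (some j) / β) * u j =
          ((i.2 : ℕ) : ℝ) * (Real.log E - (s none : ℝ) * Lam x y b / β) := by
        rw [← hkey, Finset.mul_sum]
        apply Finset.sum_congr rfl
        intro j _
        ring
      rw [e2, mul_sub, sub_eq_add_neg, Real.exp_add, mul_comm ((i.2 : ℕ) : ℝ) (Real.log E),
        Real.exp_mul, Real.exp_log hEpos, Real.rpow_natCast]
    rw [e1]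
    have e3 : (∏ j, u j ^ (i.1 j : ℕ)) * E ^ (i.2 : ℕ) - (∏ j, u j ^ (i.1 j : ℕ)) *
        (E ^ (i.2 : ℕ) * Real.exp (-((i.2 : ℕ) * ((s none : ℝ) * Lam x y b / β)))) =
        -((∏ j, u j ^ (i.1 j : ℕ)) * E ^ (i.2 : ℕ) *
          (Real.exp (-((i.2 : ℕ) * ((s none : ℝ) * Lam x y b / β))) - 1)) := by ring
    rw [e3, abs_neg, abs_mul, abs_mul]
    have e4 : |∏ j, u j ^ (i.1 j : ℕ)| ≤ (U ^ L0) ^ Fintype.card τ := by
      rw [Finset.abs_prod, ← Finset.card_univ, ← Finset.prod_const]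
      exact Finset.prod_le_prod (fun _ _ => abs_nonneg _) (fun j _ => hpowu i j)
    have e5 : |E ^ (i.2 : ℕ)| ≤ W := by
      rw [abs_of_pos (pow_pos hEpos _)]
      exact hEk _ i.2.isLt
    have e6 : |(-(((i.2 : ℕ) : ℝ) * ((s none : ℝ) * Lam x y b / β)))| ≤
        L * (T * |Lam x y b|) := by
      rw [abs_neg, abs_mul, abs_div, abs_mul, abs_of_nonneg (Nat.cast_nonneg _),
        abs_of_nonneg (Nat.cast_nonneg (s none))]
      have e7 : ((i.2 : ℕ) : ℝ) ≤ L := by exact_mod_cast i.2.isLt.le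
      have e8 : ((s none : ℕ) : ℝ) ≤ T := by exact_mod_cast hs none
      have e9 : (s none : ℝ) * |Lam x y b| / |β| ≤ T * |Lam x y b| := by
        rw [div_le_iff₀ hβpos]
        have h4 := abs_nonneg (Lam x y b)
        have h5 : 0 ≤ T * |Lam x y b| := by positivity
        nlinarith
      exact mul_le_mul e7 e9 (by positivity) (Nat.cast_nonneg _)
    have e7 : |Real.exp (-(((i.2 : ℕ) : ℝ) * ((s none : ℝ) * Lam x y b / β))) - 1| ≤
        2 * (L * (T * |Lam x y b|)) := by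
      refine (Real.abs_exp_sub_one_le (e6.trans h3')).trans ?_
      linarith
    have := abs_nonneg (Lam x y b)
    exact mul_le_mul (mul_le_mul e4 e5 (abs_nonneg _) (by positivity)) e7 (abs_nonneg _)
      (by positivity)
  -- total
  have hsum1 : |∑ i, (G i : ℝ) * ∏ j, (u j ^ (i.1 j : ℕ) *
      Real.exp ((i.2 : ℕ) * (a (some j) / β) * u j)) -
      ∑ i, (G i : ℝ) * ∏ j, (u j ^ (i.1 j : ℕ) * Tr d ((i.2 : ℕ) * (a (some j) / β) * u j))| ≤
      ((L0 ^ Fintype.card τ * L : ℕ) : ℝ) *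
        (H * (Fintype.card τ * A * (U ^ L0 * (2 * (1 / 2) ^ d)))) := by
    rw [← Finset.sum_sub_distrib, ← hcI, ← nsmul_eq_mul, ← Finset.sum_const]
    refine (Finset.abs_sum_le_sum_abs _ _).trans (Finset.sum_le_sum fun i _ => ?_)
    rw [← mul_sub, abs_mul]
    exact mul_le_mul (hGr i) (hc1 i) (abs_nonneg _) (Nat.cast_nonneg _)
  have hsum2 : |∑ i, (G i : ℝ) * ((∏ j, u j ^ (i.1 j : ℕ)) * E ^ (i.2 : ℕ)) -
      ∑ i, (G i : ℝ) * ∏ j, (u j ^ (i.1 j : ℕ) *
      Real.exp ((i.2 : ℕ) * (a (some j) / β) * u j))| ≤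
      ((L0 ^ Fintype.card τ * L : ℕ) : ℝ) *
        (H * ((U ^ L0) ^ Fintype.card τ * W * (2 * (L * (T * |Lam x y b|))))) := by
    rw [← Finset.sum_sub_distrib, ← hcI, ← nsmul_eq_mul, ← Finset.sum_const]
    refine (Finset.abs_sum_le_sum_abs _ _).trans (Finset.sum_le_sum fun i _ => ?_)
    rw [← mul_sub, abs_mul]
    exact mul_le_mul (hGr i) (hc2 i) (abs_nonneg _) (Nat.cast_nonneg _)
  have hsum3 := hGs u hub
  have hP : |∑ i, (G i : ℝ) * ((∏ j, u j ^ (i.1 j : ℕ)) * E ^ (i.2 : ℕ))| * (4 * W) ≤ 3 := by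
    have e1 : |∑ i, (G i : ℝ) * ((∏ j, u j ^ (i.1 j : ℕ)) * E ^ (i.2 : ℕ))| ≤
        ((L0 ^ Fintype.card τ * L : ℕ) : ℝ) *
          (H * ((U ^ L0) ^ Fintype.card τ * W * (2 * (L * (T * |Lam x y b|))))) +
        ((L0 ^ Fintype.card τ * L : ℕ) : ℝ) *
          (H * (Fintype.card τ * A * (U ^ L0 * (2 * (1 / 2) ^ d)))) +
        ((L0 + d) ^ Fintype.card τ : ℕ) * (1 / (N : ℝ)) := by
      have t1 := abs_sub_abs_le_abs_sub
        (∑ i, (G i : ℝ) * ((∏ j, u j ^ (i.1 j : ℕ)) * E ^ (i.2 : ℕ)))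
        (∑ i, (G i : ℝ) * ∏ j, (u j ^ (i.1 j : ℕ) *
          Real.exp ((i.2 : ℕ) * (a (some j) / β) * u j)))
      have t2 := abs_sub_abs_le_abs_sub
        (∑ i, (G i : ℝ) * ∏ j, (u j ^ (i.1 j : ℕ) *
          Real.exp ((i.2 : ℕ) * (a (some j) / β) * u j)))
        (∑ i, (G i : ℝ) * ∏ j, (u j ^ (i.1 j : ℕ) * Tr d ((i.2 : ℕ) * (a (some j) / β) * u j)))
      linarith
    have h4W : (0 : ℝ) ≤ 4 * W := by positivity
    calc _ ≤ _ := mul_le_mul_of_nonneg_right e1 h4W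
      _ ≤ 3 := by
          rw [add_mul, add_mul]
          linarith
  obtain ⟨Q, hQ⟩ := int_value hL G x y (fun j => (hx j).1) (fun j => (hy j).1)
    (fun j => uu b (fun j => (s j : ℤ)) j) s
  have hyW : (∏ j, (y j : ℝ) ^ (s j * (L - 1))) ≤ W := by
    calc (∏ j, (y j : ℝ) ^ (s j * (L - 1))) ≤ ∏ _j : Option τ, (Z : ℝ) ^ (T * L) := by
          apply Finset.prod_le_prod (fun _ _ => by positivity)
          intro j _
          have e1 : (y j : ℝ) ≤ Z := by exact_mod_cast (hy j).2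
          calc (y j : ℝ) ^ (s j * (L - 1)) ≤ (Z : ℝ) ^ (s j * (L - 1)) :=
                pow_le_pow_left₀ (Nat.cast_nonneg _) e1 _
            _ ≤ (Z : ℝ) ^ (T * L) :=
                pow_le_pow_right₀ hZ1 (Nat.mul_le_mul (hs j) (Nat.sub_le _ _))
      _ = (Z : ℝ) ^ ((Fintype.card τ + 1) * (T * L)) := by
          rw [Finset.prod_const, Finset.card_univ, Fintype.card_option, ← pow_mul,
            mul_comm (Fintype.card τ + 1)]
      _ ≤ W := by exact_mod_cast hW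
  have hypos : 0 < ∏ j, (y j : ℝ) ^ (s j * (L - 1)) := by
    apply Finset.prod_pos
    intro j _
    have := (hy j).1
    positivity
  have hQ1 : |(Q : ℝ)| < 1 := by
    rw [hQ, abs_mul, abs_of_pos hypos]
    have e1 : |∑ i, (G i : ℝ) * ((∏ j, (uu b (fun j => (s j : ℤ)) j : ℝ) ^ (i.1 j : ℕ)) *
        (∏ j, ((x j : ℝ) / y j) ^ s j) ^ (i.2 : ℕ))| * W ≤ 3 / 4 := by
      have := hP
      simp only [hu, hE] at this
      linarith
    calc _ ≤ W * |∑ i, (G i : ℝ) * ((∏ j, (uu b (fun j => (s j : ℤ)) j : ℝ) ^ (i.1 j : ℕ)) *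
        (∏ j, ((x j : ℝ) / y j) ^ s j) ^ (i.2 : ℕ))| :=
          mul_le_mul_of_nonneg_right hyW (abs_nonneg _)
      _ ≤ 3 / 4 := by rw [mul_comm]; exact e1
      _ < 1 := by norm_num
  have hQ0 : Q = 0 := by
    rw [← Int.cast_abs] at hQ1
    have : |Q| < 1 := by exact_mod_cast hQ1
    exact Int.abs_lt_one_iff.mp this
  rw [hQ0, Int.cast_zero] at hQ
  rcases mul_eq_zero.mp hQ.symm with h | h
  · exact absurd h hypos.ne'
  · exact h

end Pool.Agent.Y913.Bk
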