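import Pool.Agent.Y913.Bk.LinAlg
import Pool.Agent.Y913.Bk.Vanish
import Pool.Agent.H301R2.ZG.Grp

/-!
Archimedean linear forms in logarithms (weak form), V: the points of the group.
-/

set_option autoImplicit false

namespace Pool.Agent.Y913.Bk

open Finset MvPolynomial Pool.Agent.H364R2 Pool.Agent.H301R2.ZG

/-- additive coordinates: `some i`; multiplicative coordinate: `none` -/
def ad {τ : Type} : Option τ → Bool := fun j => j.isSome

lemma uu_add {τ : Type} (b s t : Option τ → ℤ) (i : τ) : uu b (s + t) i = uu b s i + uu b t i := by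
  unfold uu
  simp only [Pi.add_apply]
  ring

lemma uu_neg {τ : Type} (b s : Option τ → ℤ) (i : τ) : uu b (-s) i = - uu b s i := by
  unfold uu
  simp only [Pi.neg_apply]
  ring

variable {τ : Type} [Fintype τ]

/-- the points -/
noncomputable def zt (x y : Option τ → ℕ) (b s : Option τ → ℤ) : Option τ → ℂ :=
  fun j => j.elim (∏ j, ((x j : ℂ) / (y j : ℂ)) ^ (s j)) (fun i => (uu b s i : ℂ))

lemma zt_none (x y : Option τ → ℕ) (b s : Option τ → ℤ) :
    zt x y b s none = ∏ j, ((x j : ℂ) / (y j : ℂ)) ^ (s j) := rfl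

lemma zt_some (x y : Option τ → ℕ) (b s : Option τ → ℤ) (i : τ) :
    zt x y b s (some i) = (uu b s i : ℂ) := rfl

variable {x y : Option τ → ℕ} (hx : ∀ j, 1 ≤ x j) (hy : ∀ j, 1 ≤ y j) (b : Option τ → ℤ)

omit [Fintype τ] in
include hx hy in
lemma xy_ne (j : Option τ) : (x j : ℂ) / (y j : ℂ) ≠ 0 := by
  have h1 := hx j
  have h2 := hy j
  apply div_ne_zero
  · exact_mod_cast (by omega : x j ≠ 0)
  · exact_mod_cast (by omega : y j ≠ 0)

include hx hy in
lemma gmul_zt (s t : Option τ → ℤ) :
    gmul ad (zt x y b s) (zt x y b t) = zt x y b (s + t) := by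
  funext j
  rcases j with _ | i
  · simp only [gmul, ad, Option.isSome_none, Bool.false_eq_true, if_false, zt_none]
    rw [← Finset.prod_mul_distrib]
    apply Finset.prod_congr rfl
    intro j _
    rw [Pi.add_apply, zpow_add₀ (xy_ne hx hy j)]
  · simp only [gmul, ad, Option.isSome_some, if_true, zt_some]
    rw [uu_add]
    push_cast
    rfl

omit [Fintype τ] in
lemma uu_zero (i : τ) : uu b 0 i = 0 := by simp [uu]

lemma zt_zero : zt x y b 0 = gone ad := by
  funext j
  rcases j with _ | i
  · simp [zt_none, gone, ad]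
  · simp [zt_some, gone, ad, uu_zero]

lemma ginv_zt (s : Option τ → ℤ) : ginv ad (zt x y b s) = zt x y b (-s) := by
  funext j
  rcases j with _ | i
  · simp only [ginv, ad, Option.isSome_none, Bool.false_eq_true, if_false, zt_none]
    rw [← Finset.prod_inv_distrib]
    apply Finset.prod_congr rfl
    intro j _
    rw [Pi.neg_apply, zpow_neg]
  · simp only [ginv, ad, Option.isSome_some, if_true, zt_some]
    rw [uu_neg]
    push_cast
    rfl

include hx hy in
lemma isG_zt (s : Option τ → ℤ) : IsG ad (zt x y b s) := by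
  intro j hj
  rcases j with _ | i
  · rw [zt_none]
    exact Finset.prod_ne_zero_iff.mpr (fun j _ => zpow_ne_zero _ (xy_ne hx hy j))
  · simp [ad] at hj

include hx hy in
lemma prodG_zt (ss : List (Option τ → ℤ)) :
    prodG ad (ss.map (zt x y b)) = zt x y b ss.sum := by
  induction ss with
  | nil => simp [prodG, zt_zero]
  | cons s ss ih =>
    unfold prodG at ih ⊢
    rw [List.map_cons, List.foldr_cons, ih, gmul_zt hx hy, List.sum_cons]

/-- stabiliser of an ideal among the points -/
noncomputable def Kst (P : Ideal (MvPolynomial (Option τ) ℂ)) : AddSubgroup (Option τ → ℤ) where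
  carrier := {s | trI ad (zt x y b s) P = P}
  zero_mem' := by
    show trI ad (zt x y b 0) P = P
    rw [zt_zero, trI_gone]
  add_mem' := by
    intro s t hs ht
    show trI ad (zt x y b (s + t)) P = P
    rw [← gmul_zt hx hy, ← trI_trI, ht, hs]
  neg_mem' := by
    intro s hs
    show trI ad (zt x y b (-s)) P = P
    have hs' : trI ad (zt x y b s) P = P := hs
    conv_lhs => rw [← hs']
    rw [trI_trI, gmul_zt hx hy, neg_add_cancel, zt_zero, trI_gone]

lemma mem_Kst {P : Ideal (MvPolynomial (Option τ) ℂ)} {s : Option τ → ℤ} :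
    s ∈ Kst hx hy b P ↔ trI ad (zt x y b s) P = P := Iff.rfl

include hx hy in
lemma zt_mem_ZP {P : Ideal (MvPolynomial (Option τ) ℂ)} (hone : gone ad ∈ ZP ad P)
    {s : Option τ → ℤ} (hs : s ∈ Kst hx hy b P) : zt x y b s ∈ ZP ad P := by
  have h1 : zt x y b s ∈ ZP ad (trI ad (zt x y b s) P) := by
    rw [mem_ZP_trI ad (isG_zt hx hy b s) (isG_zt hx hy b s), gmul_ginv ad (isG_zt hx hy b s)]
    exact hone
  rwa [(mem_Kst hx hy b).mp hs] at h1

/-- a polynomial in few variables is determined by few coordinates -/
lemma eval_eq_of_supported {σ : Type} {E : Set σ} {f : MvPolynomial σ ℂ}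
    (hf : f ∈ supported ℂ E) {z z' : σ → ℂ} (h : ∀ j ∈ E, z j = z' j) :
    eval z f = eval z' f := by
  rw [mem_supported] at hf
  exact eval₂Hom_congr' rfl (fun i hi _ => h i (hf hi)) rfl

/-- the projection to the additive coordinates -/
noncomputable def piL (b : Option τ → ℤ) : (Option τ → ℚ) →ₗ[ℚ] (τ → ℚ) :=
  LinearMap.pi (fun i => (b none : ℚ) • LinearMap.proj (some i) -
    (b (some i) : ℚ) • LinearMap.proj none)

omit [Fintype τ] in
lemma piL_apply (v : Option τ → ℚ) (i : τ) :
    piL b v i = (b none : ℚ) * v (some i) - (b (some i) : ℚ) * v none := by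
  simp [piL]

omit [Fintype τ] in
lemma piL_qc (s : Option τ → ℤ) (i : τ) : piL b (qc s) i = (uu b s i : ℚ) := by
  rw [piL_apply]
  unfold uu qc
  push_cast
  ring

include hx hy in
theorem indep_of_notMem [DecidableEq τ] {P : Ideal (MvPolynomial (Option τ) ℂ)}
    (hone : gone ad ∈ ZP ad P) (hb0 : b none ≠ 0) (V : Submodule ℚ (Option τ → ℚ))
    (hV : V ≤ Submodule.span ℚ (qc '' (Kst hx hy b P : Set (Option τ → ℤ))))
    (hbV : qc b ∉ V) :
    ∃ I : Finset τ, I.card = Module.finrank ℚ V ∧
      Indep P ((I.image some : Finset (Option τ)) : Set (Option τ)) := by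
  classical
  have hb0' : (b none : ℚ) ≠ 0 := by exact_mod_cast hb0
  let πV : V →ₗ[ℚ] (τ → ℚ) := (piL b).comp V.subtype
  have hinj : Function.Injective πV := by
    rw [← LinearMap.ker_eq_bot, LinearMap.ker_eq_bot']
    rintro ⟨v, hv⟩ h
    have h1 : ∀ i, (b none : ℚ) * v (some i) - (b (some i) : ℚ) * v none = 0 := by
      intro i
      have := congrFun h i
      simp only [πV, LinearMap.comp_apply, Submodule.subtype_apply, piL_apply,
        Pi.zero_apply] at this
      exact this
    have h2 : v = (v none / (b none : ℚ)) • qc b := by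
      funext j
      rcases j with _ | i
      · simp only [Pi.smul_apply, smul_eq_mul, qc]
        field_simp
      · simp only [Pi.smul_apply, smul_eq_mul, qc]
        have := h1 i
        field_simp
        linarith
    have h3 : v none = 0 := by
      by_contra h4
      apply hbV
      have h5 : qc b = ((b none : ℚ) / v none) • v := by
        conv_rhs => rw [h2]
        rw [smul_smul]
        simp only [Pi.smul_apply, smul_eq_mul, qc]
        have e : (b none : ℚ) / (v none / (b none : ℚ) * (b none : ℚ)) *
            (v none / (b none : ℚ)) = 1 := by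
          field_simp
        rw [e, one_smul]
      rw [h5]
      exact V.smul_mem _ hv
    apply Subtype.ext
    show v = 0
    rw [h2, h3, zero_div, zero_smul]
  obtain ⟨I, hI, hIV⟩ := exists_coords (LinearMap.range πV)
  rw [LinearMap.finrank_range_of_inj hinj] at hI
  refine ⟨I, hI, ?_⟩
  -- the restriction to the coordinates in `I`
  let R : V →ₗ[ℚ] ({i // i ∈ I} → ℚ) := (LinearMap.funLeft ℚ ℚ (fun i : {i // i ∈ I} => i.1)).comp πV
  have hR : ∀ v i, R v i = πV v i.1 := fun v i => rfl
  have hRinj : Function.Injective R := by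
    rw [← LinearMap.ker_eq_bot, LinearMap.ker_eq_bot']
    intro v hv
    apply hinj
    rw [map_zero]
    apply hIV _ ⟨v, rfl⟩
    intro j hj
    exact congrFun hv ⟨j, hj⟩
  have hRsurj : Function.Surjective R := by
    rw [← LinearMap.injective_iff_surjective_of_finrank_eq_finrank]
    · exact hRinj
    · rw [Module.finrank_fintype_fun_eq_card, Fintype.card_coe, hI]
  choose v hv using fun i : {i // i ∈ I} => hRsurj (Pi.single i 1)
  obtain ⟨N, hN, hw⟩ := exists_mul_mem_fin (Kst hx hy b P) (fun i => (v i : Option τ → ℚ))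
    (fun i => hV (v i).2)
  choose w hwK hwv using hw
  have hwu : ∀ i j : {i // i ∈ I}, uu b (w i) j.1 = if i = j then (N : ℤ) else 0 := by
    intro i j
    have h1 := piL_qc b (w i) j.1
    rw [hwv i, map_smul] at h1
    have h2 : piL b (v i : Option τ → ℚ) j.1 = (Pi.single i 1 : {i // i ∈ I} → ℚ) j := by
      rw [← hv i]
      rfl
    rw [Pi.smul_apply, h2, Pi.single_apply, smul_eq_mul] at h1
    have h3 : ((uu b (w i) j.1 : ℤ) : ℚ) = ((if i = j then (N : ℤ) else 0 : ℤ) : ℚ) := by
      rw [← h1]
      by_cases hij : i = j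
      · subst hij; simp
      · have hji : ¬ j = i := fun h => hij h.symm
        simp [hij, hji]
    exact_mod_cast h3
  intro f hf hfP
  apply MvPolynomial.funext_set (fun j : Option τ => if j ∈ (I.image some : Finset (Option τ)) then
    {z : ℂ | ∃ k : ℤ, z = (N : ℂ) * k} else Set.univ)
  · intro j
    split_ifs
    · apply Set.infinite_of_injective_forall_mem (f := fun k : ℤ => (N : ℂ) * (k : ℂ))
      · intro k k' h
        have hN' : (N : ℂ) ≠ 0 := by exact_mod_cast hN.ne'
        have := mul_left_cancel₀ hN' h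
        exact_mod_cast this
      · intro k
        exact ⟨k, rfl⟩
    · exact Set.infinite_univ
  · intro z hz
    rw [map_zero]
    have h1 : ∀ i : {i // i ∈ I}, ∃ k : ℤ, z (some i.1) = (N : ℂ) * k := by
      intro i
      have h2 := hz (some i.1) (Set.mem_univ _)
      dsimp only at h2
      rw [if_pos (Finset.mem_image_of_mem some i.2)] at h2
      exact h2
    choose k hk using h1
    have hs : (∑ i, k i • w i) ∈ Kst hx hy b P :=
      AddSubgroup.sum_mem _ (fun i _ => AddSubgroup.zsmul_mem _ (hwK i) _)
    have h3 := (zt_mem_ZP hx hy b hone hs).2 f hfP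
    rw [← h3]
    apply eval_eq_of_supported hf
    intro j hj
    rw [Finset.mem_coe, Finset.mem_image] at hj
    obtain ⟨i, hi, rfl⟩ := hj
    rw [zt_some, hk ⟨i, hi⟩]
    have h4 : uu b (∑ i, k i • w i) i = N * k ⟨i, hi⟩ := by
      have h5 : ∀ (t : Finset {i // i ∈ I}), uu b (∑ i ∈ t, k i • w i) i =
          ∑ i' ∈ t, k i' * uu b (w i') i := by
        intro t
        induction t using Finset.induction_on with
        | empty => simp [uu]
        | insert a t ha ih =>
          rw [Finset.sum_insert ha, Finset.sum_insert ha, uu_add, ih]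
          congr 1
          unfold uu
          simp only [Pi.smul_apply, smul_eq_mul]
          ring
      rw [h5]
      have h6 : ∀ i' : {i // i ∈ I}, k i' * uu b (w i') i =
          if i' = ⟨i, hi⟩ then (N : ℤ) * k ⟨i, hi⟩ else 0 := by
        intro i'
        rw [hwu i' ⟨i, hi⟩]
        split_ifs with h7
        · rw [h7]; ring
        · ring
      rw [Finset.sum_congr rfl (fun i' _ => h6 i')]
      simp
    rw [h4]
    push_cast
    rfl

end Pool.Agent.Y913.Bk
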