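import Mathlib

/-!
Archimedean linear forms in logarithms (weak form), I: pigeonhole for real linear forms and the
truncated exponential function.
-/

set_option autoImplicit false

namespace Pool.Agent.Y913.Bk

open Finset

/-- **pigeonhole for real linear forms** -/
theorem real_siegel {I K : Type} [Fintype I] [DecidableEq I] [Fintype K] [DecidableEq K]
    (H N A : ℕ) (hN : 1 ≤ N) (c : K → I → ℝ) (hc : ∀ k i, |c k i| ≤ A)
    (hpig : (2 * (Fintype.card I * H * A * N) + 1) ^ Fintype.card K <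
      (H + 1) ^ Fintype.card I) :
    ∃ G : I → ℤ, G ≠ 0 ∧ (∀ i, |G i| ≤ H) ∧ ∀ k, |∑ i, (G i : ℝ) * c k i| ≤ 1 / N := by
  classical
  set B : ℤ := ((Fintype.card I * H * A * N : ℕ) : ℤ) with hB
  have hNpos : (0 : ℝ) < N := by exact_mod_cast hN
  let V : (I → Fin (H + 1)) → K → ℝ := fun F k => ∑ i, ((F i : ℕ) : ℝ) * c k i
  have hV : ∀ F k, |V F k * N| ≤ (B : ℝ) := by
    intro F k
    have h1 : |V F k| ≤ Fintype.card I * (H * A) := by
      calc |V F k| ≤ ∑ i, |((F i : ℕ) : ℝ) * c k i| := Finset.abs_sum_le_sum_abs _ _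
        _ ≤ ∑ _i : I, ((H : ℝ) * A) := by
            apply Finset.sum_le_sum
            intro i _
            rw [abs_mul, abs_of_nonneg (Nat.cast_nonneg _)]
            have h2 : ((F i : ℕ) : ℝ) ≤ H := by
              exact_mod_cast (Nat.lt_succ_iff.mp (F i).isLt)
            exact mul_le_mul h2 (hc k i) (abs_nonneg _) (Nat.cast_nonneg _)
        _ = _ := by rw [Finset.sum_const, Finset.card_univ, nsmul_eq_mul]
    rw [abs_mul, abs_of_pos hNpos, hB]
    push_cast
    calc |V F k| * N ≤ (Fintype.card I * (H * A)) * N := mul_le_mul_of_nonneg_right h1 hNpos.le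
      _ = _ := by ring
  let Φ : (I → Fin (H + 1)) → (K → ℤ) := fun F k => ⌊V F k * N⌋
  have hmaps : Set.MapsTo Φ (↑(Finset.univ : Finset (I → Fin (H + 1))))
      (↑(Fintype.piFinset (fun _ : K => Finset.Icc (-B) B))) := by
    intro F _
    rw [Finset.mem_coe, Fintype.mem_piFinset]
    intro k
    rw [Finset.mem_Icc]
    have h1 := abs_le.mp (hV F k)
    constructor
    · rw [Int.le_floor]
      push_cast
      exact h1.1
    · have h2 : (⌊V F k * N⌋ : ℝ) ≤ (B : ℝ) := (Int.floor_le _).trans h1.2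
      exact_mod_cast h2
  have hcard : (Fintype.piFinset (fun _ : K => Finset.Icc (-B) B)).card <
      (Finset.univ : Finset (I → Fin (H + 1))).card := by
    rw [Fintype.card_piFinset, Finset.prod_const, Finset.card_univ, Finset.card_univ,
      Fintype.card_fun, Fintype.card_fin, Int.card_Icc]
    have h1 : (B + 1 - -B).toNat = 2 * (Fintype.card I * H * A * N) + 1 := by
      rw [hB]
      omega
    rw [h1]
    exact hpig
  obtain ⟨F, _, F', _, hne, hFF⟩ := Finset.exists_ne_map_eq_of_card_lt_of_maps_to hcard hmaps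
  refine ⟨fun i => ((F i : ℕ) : ℤ) - ((F' i : ℕ) : ℤ), ?_, ?_, ?_⟩
  · intro h
    apply hne
    funext u
    have := congrFun h u
    simp only [Pi.zero_apply] at this
    apply Fin.ext
    omega
  · intro u
    have h1 := (F u).isLt
    have h2 := (F' u).isLt
    show |((F u : ℕ) : ℤ) - ((F' u : ℕ) : ℤ)| ≤ (H : ℤ)
    rw [abs_le]
    constructor <;> omega
  · intro k
    have h1 := Int.abs_sub_lt_one_of_floor_eq_floor (congrFun hFF k)
    have h2 : ∑ i, ((((F i : ℕ) : ℤ) - ((F' i : ℕ) : ℤ) : ℤ) : ℝ) * c k i = V F k - V F' k := by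
      simp only [V]
      rw [← Finset.sum_sub_distrib]
      apply Finset.sum_congr rfl
      intro i _
      push_cast
      ring
    rw [h2, le_div_iff₀ hNpos]
    rw [← sub_mul, abs_mul, abs_of_pos hNpos] at h1
    exact h1.le

/-- truncated exponential -/
noncomputable def Tr (d : ℕ) (z : ℝ) : ℝ := ∑ k ∈ range d, z ^ k / (k.factorial : ℝ)

lemma abs_Tr_le (d : ℕ) (z : ℝ) : |Tr d z| ≤ Real.exp |z| := by
  unfold Tr
  calc |∑ k ∈ range d, z ^ k / (k.factorial : ℝ)|
      ≤ ∑ k ∈ range d, |z ^ k / (k.factorial : ℝ)| := Finset.abs_sum_le_sum_abs _ _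
    _ = ∑ k ∈ range d, |z| ^ k / (k.factorial : ℝ) := by
        apply Finset.sum_congr rfl
        intro k _
        rw [abs_div, abs_pow, abs_of_nonneg (by positivity : (0 : ℝ) ≤ (k.factorial : ℝ))]
    _ ≤ Real.exp |z| := Real.sum_le_exp_of_nonneg (abs_nonneg z) d

lemma pow_div_factorial_le (x : ℝ) (hx : 0 ≤ x) (k : ℕ) :
    x ^ k / (k.factorial : ℝ) ≤ Real.exp x := by
  calc x ^ k / (k.factorial : ℝ) ≤ ∑ j ∈ range (k + 1), x ^ j / (j.factorial : ℝ) :=
        Finset.single_le_sum (f := fun j : ℕ => x ^ j / ((j.factorial : ℕ) : ℝ))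
          (fun j _ => by positivity) (Finset.mem_range.mpr (Nat.lt_succ_self k))
    _ ≤ Real.exp x := Real.sum_le_exp_of_nonneg hx _

/-- the tail of the exponential series -/
lemma abs_exp_sub_Tr {d : ℕ} {z : ℝ} (hz : 8 * |z| ≤ d) :
    |Real.exp z - Tr d z| ≤ 2 * (1 / 2) ^ d := by
  have h1 : ‖((z : ℝ) : ℂ)‖ = |z| := Complex.norm_real z
  have h2 := Complex.exp_bound' (x := ((z : ℝ) : ℂ)) (n := d) (by
    rw [h1, div_le_iff₀ (by positivity)]
    push_cast
    have := abs_nonneg z
    linarith)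
  have h3 : Complex.exp (z : ℂ) - ∑ m ∈ range d, (z : ℂ) ^ m / (m.factorial : ℂ) =
      ((Real.exp z - Tr d z : ℝ) : ℂ) := by
    unfold Tr
    push_cast
    rfl
  rw [h3, Complex.norm_real, Real.norm_eq_abs, h1] at h2
  refine h2.trans ?_
  have h4 : |z| ^ d / (d.factorial : ℝ) ≤ (1 / 2) ^ d := by
    have h5 := pow_div_factorial_le (4 * |z|) (by positivity) d
    have h6 : Real.exp (4 * |z|) ≤ 2 ^ d := by
      have h7 : (4 : ℝ) * |z| ≤ d / 2 := by linarith
      calc Real.exp (4 * |z|) ≤ Real.exp (d / 2) := Real.exp_le_exp.mpr h7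
        _ ≤ Real.exp (d * Real.log 2) := by
            apply Real.exp_le_exp.mpr
            have h8 : (1 : ℝ) / 2 ≤ Real.log 2 := by
              have := Real.log_two_gt_d9
              linarith
            have h9 : (0 : ℝ) ≤ d := Nat.cast_nonneg _
            nlinarith
        _ = 2 ^ d := by
            rw [mul_comm, Real.exp_mul, Real.exp_log (by norm_num), Real.rpow_natCast]
    rw [mul_pow] at h5
    have h10 : |z| ^ d / (d.factorial : ℝ) = (1 / 4) ^ d * (4 ^ d * |z| ^ d / (d.factorial : ℝ)) := by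
      rw [one_div, inv_pow]
      field_simp
    rw [h10]
    calc (1 / 4 : ℝ) ^ d * (4 ^ d * |z| ^ d / (d.factorial : ℝ)) ≤ (1 / 4) ^ d * 2 ^ d := by
          apply mul_le_mul_of_nonneg_left (h5.trans h6) (by positivity)
      _ = (1 / 2) ^ d := by rw [← mul_pow]; norm_num
  linarith

/-- coefficient of `u ^ e` in `u ^ l * Tr d (x * u)` -/
noncomputable def gco (d l : ℕ) (x : ℝ) (e : ℕ) : ℝ :=
  if l ≤ e ∧ e < l + d then x ^ (e - l) / ((e - l).factorial : ℝ) else 0

lemma mul_Tr_eq (L0 d l : ℕ) (hl : l < L0) (x u : ℝ) :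
    u ^ l * Tr d (x * u) = ∑ e : Fin (L0 + d), gco d l x e * u ^ (e : ℕ) := by
  have e1 : ∑ e : Fin (L0 + d), gco d l x e * u ^ (e : ℕ) =
      ∑ e ∈ range (L0 + d), gco d l x e * u ^ e :=
    Fin.sum_univ_eq_sum_range (fun e => gco d l x e * u ^ e) (L0 + d)
  rw [e1]
  have e2 : ∑ e ∈ range (L0 + d), gco d l x e * u ^ e =
      ∑ e ∈ (range (L0 + d)).filter (fun e => l ≤ e ∧ e < l + d),
        x ^ (e - l) / ((e - l).factorial : ℝ) * u ^ e := by
    rw [Finset.sum_filter]
    apply Finset.sum_congr rfl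
    intro e _
    unfold gco
    split_ifs <;> simp
  rw [e2]
  unfold Tr
  rw [Finset.mul_sum]
  apply Finset.sum_bij (fun k _ => l + k)
  · intro k hk
    rw [Finset.mem_filter]
    simp only [Finset.mem_range] at hk ⊢
    omega
  · intro a _ b _ h
    omega
  · intro e he
    rw [Finset.mem_filter] at he
    simp only [Finset.mem_range] at he
    exact ⟨e - l, by simp only [Finset.mem_range]; omega, by omega⟩
  · intro k _
    rw [Nat.add_sub_cancel_left, mul_pow, pow_add]
    ring

lemma abs_gco_le (d l L0 : ℕ) (hl : l < L0) (x U X : ℝ) (hU : 1 ≤ U) (hx : |x| * U ≤ X) (e : ℕ) :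
    |U ^ e * gco d l x e| ≤ U ^ L0 * Real.exp X := by
  have hX : 0 ≤ X := le_trans (by positivity) hx
  unfold gco
  split_ifs with h
  · have h1 : U ^ e = U ^ l * U ^ (e - l) := by rw [← pow_add]; congr 1; omega
    rw [abs_mul, abs_div, abs_pow, abs_pow, abs_of_pos (by linarith : 0 < U), h1,
      abs_of_nonneg (by positivity : (0 : ℝ) ≤ ((e - l).factorial : ℝ))]
    have h2 : U ^ l * U ^ (e - l) * (|x| ^ (e - l) / ((e - l).factorial : ℝ)) =
        U ^ l * ((|x| * U) ^ (e - l) / ((e - l).factorial : ℝ)) := by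
      rw [mul_pow]
      ring
    rw [h2]
    apply mul_le_mul
    · exact pow_le_pow_right₀ hU hl.le
    · exact (pow_div_factorial_le _ (by positivity) _).trans (Real.exp_le_exp.mpr hx)
    · positivity
    · positivity
  · rw [mul_zero, abs_zero]
    positivity

end Pool.Agent.Y913.Bk
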