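import Pool.Agent.Y913.Bk.Obstruct

/-!
Archimedean linear forms in logarithms (weak form), VIII: choice of the parameters.
-/

set_option autoImplicit false

namespace Pool.Agent.Y913.Bk

open Finset

/-- parameters -/
def cc (m : ℕ) : ℕ := 32 * (m + 1) ^ 2
/-- parameters -/
def MM (m g : ℕ) : ℕ := 3 * cc m * g
/-- parameters -/
def LL (m g : ℕ) : ℕ := 3 * MM m g ^ m
/-- parameters -/
def SS (m g : ℕ) : ℕ := 2 ^ ((m + 2) * (m + 1)) * LL m g ^ (m + 1) + 1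
/-- parameters -/
def L0 (m g : ℕ) : ℕ := LL m g * SS m g
/-- parameters -/
def dd (m g : ℕ) : ℕ := 2 * cc m * g * L0 m g

lemma cc_pos (m : ℕ) : 1 ≤ cc m := by
  unfold cc
  have : 1 ≤ (m + 1) ^ 2 := Nat.one_le_pow _ _ (by omega)
  omega

lemma MM_pos (m g : ℕ) (hg : 1 ≤ g) : 1 ≤ MM m g := by
  unfold MM
  have := cc_pos m
  exact Nat.mul_pos (by omega) hg

lemma LL_pos (m g : ℕ) (hg : 1 ≤ g) : 1 ≤ LL m g := by
  unfold LL
  have : 1 ≤ MM m g ^ m := Nat.one_le_pow _ _ (MM_pos m g hg)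
  omega

lemma SS_pos (m g : ℕ) : 1 ≤ SS m g := by
  unfold SS
  omega

lemma L0_pos (m g : ℕ) (hg : 1 ≤ g) : 1 ≤ L0 m g := Nat.mul_pos (LL_pos m g hg) (SS_pos m g)

lemma hSb_params (m g : ℕ) (hg : 1 ≤ g) (k : ℕ) (hk : k ≤ m) :
    2 ^ ((m + 2) * (m + 1)) * (LL m g * L0 m g ^ k) < SS m g ^ (k + 1) := by
  unfold L0
  have hS := SS_pos m g
  have hL := LL_pos m g hg
  have h1 : 2 ^ ((m + 2) * (m + 1)) * LL m g ^ (k + 1) < SS m g := by
    calc 2 ^ ((m + 2) * (m + 1)) * LL m g ^ (k + 1)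
        ≤ 2 ^ ((m + 2) * (m + 1)) * LL m g ^ (m + 1) :=
          Nat.mul_le_mul_left _ (Nat.pow_le_pow_right hL (by omega))
      _ < SS m g := by unfold SS; omega
  calc 2 ^ ((m + 2) * (m + 1)) * (LL m g * (LL m g * SS m g) ^ k)
      = (2 ^ ((m + 2) * (m + 1)) * LL m g ^ (k + 1)) * SS m g ^ k := by
        rw [mul_pow, pow_succ]
        ring
    _ < SS m g * SS m g ^ k := Nat.mul_lt_mul_of_pos_right h1 (Nat.pow_pos hS)
    _ = SS m g ^ (k + 1) := by rw [pow_succ]; ring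

lemma hpig_params (m g : ℕ) (hg : 1 ≤ g) :
    2 * (L0 m g + dd m g) ^ m < L0 m g ^ m * LL m g := by
  have hL0 := L0_pos m g hg
  have hc := cc_pos m
  have h1 : L0 m g + dd m g ≤ MM m g * L0 m g := by
    unfold dd MM
    have h2 : 1 ≤ cc m * g := Nat.mul_pos hc hg
    have h3 : L0 m g ≤ (cc m * g) * L0 m g := Nat.le_mul_of_pos_left _ h2
    nlinarith
  have hM := MM_pos m g hg
  have h2 : 0 < MM m g ^ m * L0 m g ^ m := Nat.mul_pos (Nat.pow_pos hM) (Nat.pow_pos hL0)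
  calc 2 * (L0 m g + dd m g) ^ m ≤ 2 * (MM m g * L0 m g) ^ m :=
        Nat.mul_le_mul_left _ (Nat.pow_le_pow_left h1 _)
    _ = 2 * (MM m g ^ m * L0 m g ^ m) := by rw [mul_pow]
    _ < 3 * (MM m g ^ m * L0 m g ^ m) := by omega
    _ = L0 m g ^ m * LL m g := by unfold LL; ring

/-- **the dichotomy** -/
theorem dichotomy {τ : Type} [Fintype τ] [DecidableEq τ] (g : ℕ) (hg : 1 ≤ g)
    (hbig1 : L0 (Fintype.card τ) g + dd (Fintype.card τ) g ≤ 2 ^ g)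
    (hbig2 : 2 * ((Fintype.card τ + 1) * SS (Fintype.card τ) g) ≤ 2 ^ g)
    (x y : Option τ → ℕ) (hx : ∀ j, 1 ≤ x j ∧ x j ≤ 2 ^ g) (hy : ∀ j, 1 ≤ y j ∧ y j ≤ 2 ^ g)
    (b : Option τ → ℤ) (hb0 : b none ≠ 0) (hb : ∀ j, |b j| ≤ |b none|)
    (hbg : |b none| ≤ 2 ^ g)
    (hind : ∀ s : Option τ → ℤ, ∏ j, ((x j : ℝ) / (y j : ℝ)) ^ (s j) = 1 → s = 0)
    (hsmall : |Lam x y b| ≤ (1 / 2) ^ (2 * dd (Fintype.card τ) g)) :
    ∃ D : Finset (Option τ → ℤ), (∀ v ∈ D, ∀ j, |v j| < SS (Fintype.card τ) g) ∧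
      qc b ∈ Submodule.span ℚ (qc '' (D : Set (Option τ → ℤ))) ∧
      Module.finrank ℚ (Submodule.span ℚ (qc '' (D : Set (Option τ → ℤ)))) ≤ Fintype.card τ := by
  classical
  obtain ⟨m, hm⟩ : ∃ m, m = Fintype.card τ := ⟨_, rfl⟩
  rw [← hm] at hbig1 hbig2 hsmall ⊢
  obtain ⟨L, hLdef⟩ : ∃ L, L = LL m g := ⟨_, rfl⟩
  obtain ⟨S, hSdef⟩ : ∃ S, S = SS m g := ⟨_, rfl⟩
  obtain ⟨Q, hQdef⟩ : ∃ Q, Q = L0 m g := ⟨_, rfl⟩
  obtain ⟨d, hddef⟩ : ∃ d, d = dd m g := ⟨_, rfl⟩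
  have hL1 : 1 ≤ L := hLdef ▸ LL_pos m g hg
  have hS1 : 1 ≤ S := hSdef ▸ SS_pos m g
  have hQ1 : 1 ≤ Q := hQdef ▸ L0_pos m g hg
  have hQLS : Q = L * S := by rw [hQdef, hLdef, hSdef]; rfl
  have hSb : ∀ k ≤ m, 2 ^ ((m + 2) * (m + 1)) * (L * Q ^ k) < S ^ (k + 1) := by
    intro k hk
    rw [hLdef, hQdef, hSdef]
    exact hSb_params m g hg k hk
  have hpg : 2 * (Q + d) ^ m < Q ^ m * L := by
    rw [hLdef, hQdef, hddef]
    exact hpig_params m g hg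
  have hdQ : d = 64 * (m + 1) ^ 2 * (g * Q) := by
    rw [hddef, hQdef]
    unfold dd cc
    ring
  rw [← hQdef, ← hddef] at hbig1
  rw [← hSdef] at hbig2 ⊢
  rw [← hddef] at hsmall
  clear hLdef hSdef hQdef hddef
  -- the remaining parameters
  obtain ⟨T, hT⟩ : ∃ T, T = (m + 1) * S := ⟨_, rfl⟩
  obtain ⟨P, hP⟩ : ∃ P, P = g * Q := ⟨_, rfl⟩
  have hTL : T * L = (m + 1) * Q := by rw [hT, hQLS]; ring
  have hgP : g ≤ P := by rw [hP]; exact Nat.le_mul_of_pos_right _ hQ1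
  have hP1 : 1 ≤ P := hg.trans hgP
  obtain ⟨Xn, hXn⟩ : ∃ Xn, Xn = 2 * (m + 1) * P := ⟨_, rfl⟩
  obtain ⟨a, ha⟩ : ∃ a, a = m * (3 * P + 2 * Xn) := ⟨_, rfl⟩
  obtain ⟨w, hw⟩ : ∃ w, w = g * ((m + 1) * (T * L)) := ⟨_, rfl⟩
  have hwP : w = (m + 1) ^ 2 * P := by rw [hw, hTL, hP]; ring
  obtain ⟨N', hN'⟩ : ∃ N', N' = g * m + 2 + w := ⟨_, rfl⟩
  obtain ⟨h', hh'⟩ : ∃ h', h' = 1 + g * m + g + a + N' := ⟨_, rfl⟩
  have hT1 : 1 ≤ T := by rw [hT]; exact Nat.mul_pos (by omega) hS1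
  have hbR : |(b none : ℝ)| ≤ 2 ^ g := by
    rw [← Int.cast_abs]
    exact_mod_cast hbg
  have hbR1 : 1 ≤ |(b none : ℝ)| := by
    rw [← Int.cast_abs]
    exact_mod_cast Int.one_le_abs hb0
  have hbR0 : (b none : ℝ) ≠ 0 := by exact_mod_cast hb0
  obtain ⟨U, hU⟩ : ∃ U : ℝ, U = 2 * T * |(b none : ℝ)| := ⟨_, rfl⟩
  have hTr : (1 : ℝ) ≤ T := by exact_mod_cast hT1
  have hU1 : 1 ≤ U := by rw [hU]; nlinarith
  have hU2 : U ≤ 2 ^ (2 * g) := by
    have h1 : (2 : ℝ) * T ≤ 2 ^ g := by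
      have : 2 * T ≤ 2 ^ g := by rw [hT]; exact hbig2
      exact_mod_cast this
    rw [hU, two_mul g, pow_add]
    exact mul_le_mul h1 hbR (abs_nonneg _) (by positivity)
  have hUQ : U ^ Q ≤ 2 ^ (2 * P) := by
    calc U ^ Q ≤ ((2 : ℝ) ^ (2 * g)) ^ Q := pow_le_pow_left₀ (by linarith) hU2 _
      _ = 2 ^ (2 * P) := by rw [← pow_mul, hP]; congr 1; ring
  have hlogZ : Real.log ((2 ^ g : ℕ) : ℝ) ≤ g := by
    push_cast
    rw [Real.log_pow]
    have : Real.log 2 ≤ 1 := by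
      have := Real.log_two_lt_d9
      linarith
    have hg0 : (0 : ℝ) ≤ g := Nat.cast_nonneg _
    nlinarith
  have hlogZ0 : 0 ≤ Real.log ((2 ^ g : ℕ) : ℝ) := Real.log_nonneg (by
    have : 1 ≤ 2 ^ g := Nat.one_le_two_pow
    exact_mod_cast this)
  have hXbound : (L : ℝ) * (2 * T * Real.log ((2 ^ g : ℕ) : ℝ)) ≤ Xn := by
    calc (L : ℝ) * (2 * T * Real.log ((2 ^ g : ℕ) : ℝ)) ≤ L * (2 * T * g) := by gcongr
      _ = ((2 * g * (T * L) : ℕ) : ℝ) := by push_cast; ring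
      _ = ((Xn : ℕ) : ℝ) := by
          congr 1
          rw [hTL, hXn, hP]
          ring
  have hX0 : (0 : ℝ) ≤ Xn := Nat.cast_nonneg _
  have hexpX : Real.exp Xn ≤ 2 ^ (2 * Xn) := by
    calc Real.exp Xn ≤ Real.exp ((2 * Xn : ℕ) * Real.log 2) := by
          apply Real.exp_le_exp.mpr
          have := Real.log_two_gt_d9
          push_cast
          nlinarith
      _ = 2 ^ (2 * Xn) := by
          rw [mul_comm, Real.exp_mul, Real.exp_log (by norm_num), Real.rpow_natCast]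
  have hA : (U ^ Q * Real.exp Xn) ^ m ≤ ((2 ^ a : ℕ) : ℝ) := by
    calc (U ^ Q * Real.exp Xn) ^ m ≤ ((2 : ℝ) ^ (2 * P) * 2 ^ (2 * Xn)) ^ m := by
          apply pow_le_pow_left₀ (by positivity)
          exact mul_le_mul hUQ hexpX (Real.exp_pos _).le (by positivity)
      _ = (2 : ℝ) ^ (m * (2 * P + 2 * Xn)) := by
          rw [← pow_add, ← pow_mul, mul_comm]
      _ ≤ 2 ^ a := by
          apply pow_le_pow_right₀ (by norm_num)
          rw [ha]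
          apply Nat.mul_le_mul_left
          omega
      _ = _ := by push_cast; rfl
  have hQd : (Q + d) ^ m ≤ 2 ^ (g * m) := by
    rw [pow_mul]
    exact Nat.pow_le_pow_left hbig1 _
  have hQm : Q ^ m ≤ 2 ^ (g * m) := by
    rw [pow_mul]
    exact Nat.pow_le_pow_left (by omega) _
  have hLg : L ≤ 2 ^ g := by
    have : L ≤ Q := by rw [hQLS]; exact Nat.le_mul_of_pos_right _ hS1
    omega
  have hQmL : Q ^ m * L ≤ 2 ^ (g * m + g) := by
    rw [pow_add]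
    exact Nat.mul_le_mul hQm hLg
  have hmg : m ≤ 2 ^ g := by
    have : m + 1 ≤ (m + 1) * S := Nat.le_mul_of_pos_right _ hS1
    omega
  -- the auxiliary function
  obtain ⟨G, hG, hGH, hGs⟩ := exists_aux (τ := τ) Q L d (2 ^ h') (2 ^ N') (2 ^ a)
    Nat.one_le_two_pow
    (fun j => (Real.log (x (some j)) - Real.log (y (some j))) / b none) U Xn hU1
    (by
      intro j
      have h1 : |Real.log (x (some j)) - Real.log (y (some j))| ≤ Real.log ((2 ^ g : ℕ) : ℝ) :=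
        abs_log_sub_log_le (hx _) (hy _)
      rw [abs_div]
      calc (L : ℝ) * (|Real.log (x (some j)) - Real.log (y (some j))| / |(b none : ℝ)|) * U
          = L * (2 * T * |Real.log (x (some j)) - Real.log (y (some j))|) := by
            rw [hU]
            field_simp
        _ ≤ L * (2 * T * Real.log ((2 ^ g : ℕ) : ℝ)) := by gcongr
        _ ≤ Xn := hXbound)
    (by rw [← hm]; exact hA)
    (by
      rw [← hm]
      have h1 : 2 * (Q ^ m * L * 2 ^ h' * 2 ^ a * 2 ^ N') + 1 ≤ (2 ^ h' + 1) ^ 2 := by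
        have h2 : 2 * (Q ^ m * L * 2 ^ a * 2 ^ N') ≤ 2 ^ h' := by
          calc 2 * (Q ^ m * L * 2 ^ a * 2 ^ N') ≤ 2 * (2 ^ (g * m + g) * 2 ^ a * 2 ^ N') := by
                gcongr
            _ = 2 ^ h' := by
                rw [hh', show 1 + g * m + g + a + N' = 1 + ((g * m + g) + a + N') by ring,
                  pow_add 2 1, pow_add 2 _ N', pow_add 2 _ a, pow_one]
        have h3 : 2 * (Q ^ m * L * 2 ^ h' * 2 ^ a * 2 ^ N') =
            2 ^ h' * (2 * (Q ^ m * L * 2 ^ a * 2 ^ N')) := by ring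
        have h4 : (2 ^ h' + 1) ^ 2 = 2 ^ h' * 2 ^ h' + 2 * 2 ^ h' + 1 := by ring
        rw [h3, h4]
        exact Nat.add_le_add_right ((Nat.mul_le_mul_left _ h2).trans (Nat.le_add_right _ _)) 1
      calc (2 * (Q ^ m * L * 2 ^ h' * 2 ^ a * 2 ^ N') + 1) ^ ((Q + d) ^ m)
          ≤ ((2 ^ h' + 1) ^ 2) ^ ((Q + d) ^ m) := Nat.pow_le_pow_left h1 _
        _ = (2 ^ h' + 1) ^ (2 * (Q + d) ^ m) := by rw [← pow_mul]
        _ < (2 ^ h' + 1) ^ (Q ^ m * L) := by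
            apply Nat.pow_lt_pow_right _ hpg
            have : 1 ≤ 2 ^ h' := Nat.one_le_two_pow
            omega)
  rw [hm]
  apply obstruct (fun j => (hx j).1) (fun j => (hy j).1) b hQ1 hL1 hS1 G hG hb0 hind _
    (by rw [← hm]; exact hSb)
  intro s hs
  have hs' : ∀ j, s j ≤ T := by
    intro j
    rw [hT, hm]
    exact hs j
  -- exponents
  have hd1 : 8 * Xn ≤ d := by
    rw [hdQ, ← hP, hXn]
    nlinarith [Nat.zero_le (m * P), Nat.zero_le (m * m * P)]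
  have hgmP : g * m ≤ P * m := Nat.mul_le_mul_right _ hgP
  have he2 : (g * m + g) + h' + g + a + 2 * P + 1 + 2 + w ≤ d := by
    rw [hh', hN', ha, hXn, hwP, hdQ, ← hP]
    nlinarith [Nat.zero_le (m * P), Nat.zero_le (m * m * P)]
  have he3 : (g * m + g) + h' + 2 * P * m + w + 1 + 2 * g + 2 + w ≤ 2 * d := by
    rw [hh', hN', ha, hXn, hwP, hdQ, ← hP]
    nlinarith [Nat.zero_le (m * P), Nat.zero_le (m * m * P)]
  have hLT : (L : ℝ) * T ≤ 2 ^ (2 * g) := by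
    have h1 : T ≤ 2 ^ g := by rw [hT]; omega
    have h2 : L * T ≤ 2 ^ (2 * g) := by
      rw [two_mul, pow_add]
      exact Nat.mul_le_mul hLg h1
    exact_mod_cast h2
  have hLamT : (L : ℝ) * (T * |Lam x y b|) ≤ 2 ^ (2 * g) * (1 / 2) ^ (2 * d) := by
    rw [← mul_assoc]
    exact mul_le_mul hLT hsmall (abs_nonneg _) (by positivity)
  have hhalf : ∀ e f : ℕ, e ≤ f → (2 : ℝ) ^ e * (1 / 2) ^ f ≤ 1 := by
    intro e f hef
    calc (2 : ℝ) ^ e * (1 / 2) ^ f ≤ 2 ^ f * (1 / 2) ^ f := by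
          apply mul_le_mul_of_nonneg_right _ (by positivity)
          exact pow_le_pow_right₀ (by norm_num) hef
      _ = 1 := by rw [← mul_pow]; norm_num
  refine vanish (Z := 2 ^ g) (T := T) hL1 (by
      calc 2 = 2 ^ 1 := rfl
        _ ≤ 2 ^ g := Nat.pow_le_pow_right (by norm_num) hg) hT1 x y hx hy b hb0 hb U Xn hU
    hXbound hX0 (by exact_mod_cast hd1) (by rw [← hm]; exact hA) G (by exact_mod_cast hGH)
    (by exact_mod_cast hGs) (2 ^ w) ?_ ?_ ?_ ?_ ?_ s hs'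
  · rw [← pow_mul, hw, hm]
  · -- h1
    rw [← hm]
    have h1 : ((Q + d) ^ m : ℕ) * (4 * 2 ^ w) ≤ 2 ^ N' := by
      calc ((Q + d) ^ m : ℕ) * (4 * 2 ^ w) ≤ 2 ^ (g * m) * (4 * 2 ^ w) :=
            Nat.mul_le_mul_right _ hQd
        _ = 2 ^ N' := by rw [hN', pow_add, pow_add]; ring
    have h2 : (((Q + d) ^ m : ℕ) : ℝ) * (4 * 2 ^ w) ≤ 2 ^ N' := by exact_mod_cast h1
    have h3 : (0 : ℝ) < 2 ^ N' := by positivity
    push_cast at h2 ⊢
    calc ((Q : ℝ) + d) ^ m * (1 / 2 ^ N') * (4 * 2 ^ w) =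
          (((Q : ℝ) + d) ^ m * (4 * 2 ^ w)) / 2 ^ N' := by ring
      _ ≤ 1 := by rw [div_le_one h3]; exact h2
  · -- h2
    rw [← hm]
    have h1 : (((Q ^ m * L : ℕ)) : ℝ) ≤ 2 ^ (g * m + g) := by exact_mod_cast hQmL
    have h2 : (m : ℝ) ≤ 2 ^ g := by exact_mod_cast hmg
    push_cast at h1 ⊢
    calc (Q : ℝ) ^ m * L * (2 ^ h' * (m * 2 ^ a * (U ^ Q * (2 * (1 / 2) ^ d)))) * (4 * 2 ^ w)
        ≤ 2 ^ (g * m + g) * (2 ^ h' * (2 ^ g * 2 ^ a * (2 ^ (2 * P) * (2 * (1 / 2) ^ d)))) *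
          (4 * 2 ^ w) := by gcongr
      _ = 2 ^ ((g * m + g) + h' + g + a + 2 * P + 1 + 2 + w) * (1 / 2) ^ d := by
          simp only [pow_add]
          ring
      _ ≤ 1 := hhalf _ _ he2
  · -- h3
    rw [← hm]
    have h1 : (((Q ^ m * L : ℕ)) : ℝ) ≤ 2 ^ (g * m + g) := by exact_mod_cast hQmL
    have h2 : (U ^ Q) ^ m ≤ 2 ^ (2 * P * m) := by
      rw [pow_mul]
      exact pow_le_pow_left₀ (by positivity) hUQ _
    push_cast at h1 ⊢
    calc (Q : ℝ) ^ m * L * (2 ^ h' * ((U ^ Q) ^ m * 2 ^ w * (2 * (L * (T * |Lam x y b|))))) *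
          (4 * 2 ^ w)
        ≤ 2 ^ (g * m + g) * (2 ^ h' * (2 ^ (2 * P * m) * 2 ^ w *
          (2 * (2 ^ (2 * g) * (1 / 2) ^ (2 * d))))) * (4 * 2 ^ w) := by gcongr
      _ = 2 ^ ((g * m + g) + h' + 2 * P * m + w + 1 + 2 * g + 2 + w) * (1 / 2) ^ (2 * d) := by
          simp only [pow_add]
          ring
      _ ≤ 1 := hhalf _ _ he3
  · -- h3'
    exact hLamT.trans (hhalf _ _ (by omega))

end Pool.Agent.Y913.Bk
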