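import Pool.Agent.Y913.Bk.Step
import Pool.Agent.Y913.Bk.Descent

/-!
**A weak lower bound for linear forms in logarithms of rational numbers (archimedean)**:
if `x j / y j`, `j = 1, ..., n`, are multiplicatively independent, with `x j, y j ≤ 2 ^ g`, and `b`
is a nonzero integer vector with `|b j| ≤ 2 ^ g`, then
`|∑ b j log (x j / y j)| ≥ 2 ^ (- g ^ κ)` with `κ = κ (n)`, for `g ≥ g0 (n)`.
-/

set_option autoImplicit false

namespace Pool.Agent.Y913.Bk

open Finset

/-- polynomially bounded -/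
def PolyB (f : ℕ → ℕ) : Prop := ∃ E g1 : ℕ, ∀ g, g1 ≤ g → f g ≤ g ^ E

lemma PolyB.const (c : ℕ) : PolyB (fun _ => c) := ⟨1, c, fun g hg => by rwa [pow_one]⟩

lemma PolyB.id : PolyB (fun g => g) := ⟨1, 0, fun g _ => by rw [pow_one]⟩

lemma PolyB.mul {f h : ℕ → ℕ} (hf : PolyB f) (hh : PolyB h) : PolyB (fun g => f g * h g) := by
  obtain ⟨E, g1, h1⟩ := hf
  obtain ⟨E', g1', h1'⟩ := hh
  refine ⟨E + E', max g1 g1', fun g hg => ?_⟩
  rw [pow_add]
  exact Nat.mul_le_mul (h1 g (le_of_max_le_left hg)) (h1' g (le_of_max_le_right hg))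

lemma PolyB.add {f h : ℕ → ℕ} (hf : PolyB f) (hh : PolyB h) : PolyB (fun g => f g + h g) := by
  obtain ⟨E, g1, h1⟩ := hf
  obtain ⟨E', g1', h1'⟩ := hh
  refine ⟨E + E' + 1, max (max g1 g1') 2, fun g hg => ?_⟩
  have hg2 : 2 ≤ g := le_of_max_le_right hg
  have hg1 := le_of_max_le_left hg
  have e1 : f g ≤ g ^ (E + E') :=
    (h1 g (le_of_max_le_left hg1)).trans (Nat.pow_le_pow_right (by omega) (by omega))
  have e2 : h g ≤ g ^ (E + E') :=
    (h1' g (le_of_max_le_right hg1)).trans (Nat.pow_le_pow_right (by omega) (by omega))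
  calc f g + h g ≤ g ^ (E + E') * 2 := by omega
    _ ≤ g ^ (E + E') * g := Nat.mul_le_mul_left _ hg2
    _ = g ^ (E + E' + 1) := by rw [pow_succ]

lemma PolyB.pow {f : ℕ → ℕ} (hf : PolyB f) (k : ℕ) : PolyB (fun g => f g ^ k) := by
  obtain ⟨E, g1, h1⟩ := hf
  refine ⟨E * k, g1, fun g hg => ?_⟩
  rw [pow_mul]
  exact Nat.pow_le_pow_left (h1 g hg) k

lemma pow_le_two_pow (E : ℕ) : ∃ g1 : ℕ, ∀ g, g1 ≤ g → g ^ E ≤ 2 ^ g := by
  have h := tendsto_pow_const_div_const_pow_of_one_lt E (r := (2 : ℝ)) (by norm_num)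
  have h1 := h.eventually_le_const (u := 1) (by norm_num)
  rw [Filter.eventually_atTop] at h1
  obtain ⟨g1, hg1⟩ := h1
  refine ⟨g1, fun g hg => ?_⟩
  have h2 := hg1 g hg
  rw [div_le_one (by positivity)] at h2
  exact_mod_cast h2

lemma PolyB.le_two_pow {f : ℕ → ℕ} (hf : PolyB f) : ∃ g1 : ℕ, ∀ g, g1 ≤ g → f g ≤ 2 ^ g := by
  obtain ⟨E, g1, h1⟩ := hf
  obtain ⟨g2, h2⟩ := pow_le_two_pow E
  exact ⟨max g1 g2, fun g hg => (h1 g (le_of_max_le_left hg)).trans
    (h2 g (le_of_max_le_right hg))⟩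

lemma polyB_MM (m : ℕ) : PolyB (fun g => MM m g) := (PolyB.const (3 * cc m)).mul PolyB.id

lemma polyB_LL (m : ℕ) : PolyB (fun g => LL m g) := (PolyB.const 3).mul ((polyB_MM m).pow m)

lemma polyB_SS (m : ℕ) : PolyB (fun g => SS m g) :=
  ((PolyB.const (2 ^ ((m + 2) * (m + 1)))).mul ((polyB_LL m).pow (m + 1))).add (PolyB.const 1)

lemma polyB_L0 (m : ℕ) : PolyB (fun g => L0 m g) := (polyB_LL m).mul (polyB_SS m)

lemma polyB_dd (m : ℕ) : PolyB (fun g => dd m g) :=
  ((PolyB.const (2 * cc m)).mul PolyB.id).mul (polyB_L0 m)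

/-- the bound for `n` logarithms with the exponent `κ`, for `g ≥ g0` -/
def WB (n κ g0 : ℕ) : Prop := ∀ g, g0 ≤ g → ∀ (x y : Fin n → ℕ) (b : Fin n → ℤ),
  (∀ j, 1 ≤ x j ∧ x j ≤ 2 ^ g) → (∀ j, 1 ≤ y j ∧ y j ≤ 2 ^ g) → (∀ j, |b j| ≤ 2 ^ g) → b ≠ 0 →
  (∀ s : Fin n → ℤ, ∏ j, ((x j : ℝ) / (y j : ℝ)) ^ (s j) = 1 → s = 0) →
  (1 / 2 : ℝ) ^ (g ^ κ) ≤ |Lam x y b|

lemma WB.mono {n κ g0 κ' g0' : ℕ} (h : WB n κ g0) (hκ : κ ≤ κ') (hg : g0 ≤ g0') (hg1 : 1 ≤ g0') :
    WB n κ' g0' := by
  intro g hg' x y b hx hy hb hb0 hind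
  refine le_trans ?_ (h g (hg.trans hg') x y b hx hy hb hb0 hind)
  apply pow_le_pow_of_le_one (by norm_num) (by norm_num)
  exact Nat.pow_le_pow_right (by omega) hκ

/-- transfer to arbitrary index types -/
lemma WB.transfer {n κ g0 : ℕ} (h : WB n κ g0) {σ : Type} [Fintype σ] (hσ : Fintype.card σ = n)
    (g : ℕ) (hg : g0 ≤ g) (x y : σ → ℕ) (b : σ → ℤ)
    (hx : ∀ j, 1 ≤ x j ∧ x j ≤ 2 ^ g) (hy : ∀ j, 1 ≤ y j ∧ y j ≤ 2 ^ g)
    (hb : ∀ j, |b j| ≤ 2 ^ g) (hb0 : b ≠ 0)
    (hind : ∀ s : σ → ℤ, ∏ j, ((x j : ℝ) / (y j : ℝ)) ^ (s j) = 1 → s = 0) :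
    (1 / 2 : ℝ) ^ (g ^ κ) ≤ |Lam x y b| := by
  let e : Fin n ≃ σ := (Fintype.equivFinOfCardEq hσ).symm
  have h1 := h g hg (x ∘ e) (y ∘ e) (b ∘ e) (fun j => hx _) (fun j => hy _) (fun j => hb _)
    (by
      intro h0
      apply hb0
      funext j
      have := congrFun h0 (e.symm j)
      simpa using this)
    (by
      intro s hs
      have h2 := hind (s ∘ e.symm) (by
        rw [← hs]
        apply Fintype.prod_equiv e.symm
        intro j
        simp)
      funext j
      have := congrFun h2 (e j)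
      simpa using this)
  have h2 : Lam (x ∘ e) (y ∘ e) (b ∘ e) = Lam x y b := by
    unfold Lam
    exact Fintype.sum_equiv e _ _ (fun j => rfl)
  rwa [h2] at h1

lemma prod_zpow_split {σ : Type} [Fintype σ] (x y : σ → ℕ) (hx : ∀ j, 1 ≤ x j)
    (hy : ∀ j, 1 ≤ y j) (v : σ → ℤ) (g R : ℕ) (hxg : ∀ j, x j ≤ 2 ^ g) (hyg : ∀ j, y j ≤ 2 ^ g)
    (hv : ∀ j, |v j| ≤ R) :
    ∃ x' y' : ℕ, (1 ≤ x' ∧ x' ≤ 2 ^ (g * (Fintype.card σ * R))) ∧
      (1 ≤ y' ∧ y' ≤ 2 ^ (g * (Fintype.card σ * R))) ∧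
      (x' : ℝ) / (y' : ℝ) = ∏ j, ((x j : ℝ) / (y j : ℝ)) ^ (v j) ∧
      Real.log x' - Real.log y' = ∑ j, (v j : ℝ) * (Real.log (x j) - Real.log (y j)) := by
  refine ⟨∏ j, (if 0 ≤ v j then x j else y j) ^ (v j).natAbs,
    ∏ j, (if 0 ≤ v j then y j else x j) ^ (v j).natAbs, ⟨?_, ?_⟩, ⟨?_, ?_⟩, ?_, ?_⟩
  · apply Nat.one_le_iff_ne_zero.mpr
    apply Finset.prod_ne_zero_iff.mpr
    intro j _
    apply pow_ne_zero
    have h1 := hx j
    have h2 := hy j
    split_ifs <;> omega
  · calc ∏ j, (if 0 ≤ v j then x j else y j) ^ (v j).natAbs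
        ≤ ∏ _j : σ, (2 ^ g) ^ R := by
          apply Finset.prod_le_prod' 
          intro j _
          have h1 : (if 0 ≤ v j then x j else y j) ≤ 2 ^ g := by
            split_ifs
            · exact hxg j
            · exact hyg j
          have h2 : (v j).natAbs ≤ R := by
            have h3 := hv j
            rw [← Int.natCast_natAbs] at h3
            exact_mod_cast h3
          exact (Nat.pow_le_pow_left h1 _).trans
            (Nat.pow_le_pow_right (Nat.one_le_two_pow) h2)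
      _ = _ := by
          rw [Finset.prod_const, Finset.card_univ, ← pow_mul, ← pow_mul]
          congr 1
          ring
  · apply Nat.one_le_iff_ne_zero.mpr
    apply Finset.prod_ne_zero_iff.mpr
    intro j _
    apply pow_ne_zero
    have h1 := hx j
    have h2 := hy j
    split_ifs <;> omega
  · calc ∏ j, (if 0 ≤ v j then y j else x j) ^ (v j).natAbs
        ≤ ∏ _j : σ, (2 ^ g) ^ R := by
          apply Finset.prod_le_prod'
          intro j _
          have h1 : (if 0 ≤ v j then y j else x j) ≤ 2 ^ g := by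
            split_ifs
            · exact hyg j
            · exact hxg j
          have h2 : (v j).natAbs ≤ R := by
            have h3 := hv j
            rw [← Int.natCast_natAbs] at h3
            exact_mod_cast h3
          exact (Nat.pow_le_pow_left h1 _).trans
            (Nat.pow_le_pow_right (Nat.one_le_two_pow) h2)
      _ = _ := by
          rw [Finset.prod_const, Finset.card_univ, ← pow_mul, ← pow_mul]
          congr 1
          ring
  · push_cast
    rw [← Finset.prod_div_distrib]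
    apply Finset.prod_congr rfl
    intro j _
    have h1 : (x j : ℝ) ≠ 0 := by have := hx j; positivity
    have h2 : (y j : ℝ) ≠ 0 := by have := hy j; positivity
    by_cases h : 0 ≤ v j
    · rw [if_pos h, if_pos h, ← div_pow, ← zpow_natCast, Int.natAbs_of_nonneg h]
    · rw [if_neg h, if_neg h, ← div_pow, ← zpow_natCast]
      have h3 : (((v j).natAbs : ℕ) : ℤ) = - v j := by omega
      rw [h3, zpow_neg, ← inv_zpow, inv_div]
  · push_cast
    have h1 : ∀ j, (x j : ℝ) ≠ 0 := fun j => by have := hx j; positivity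
    have h2 : ∀ j, (y j : ℝ) ≠ 0 := fun j => by have := hy j; positivity
    rw [Real.log_prod (fun j _ => by
      apply pow_ne_zero
      split_ifs
      · exact h1 j
      · exact h2 j), Real.log_prod (fun j _ => by
      apply pow_ne_zero
      split_ifs
      · exact h2 j
      · exact h1 j), ← Finset.sum_sub_distrib]
    apply Finset.sum_congr rfl
    intro j _
    rw [Real.log_pow, Real.log_pow]
    by_cases h : 0 ≤ v j
    · rw [if_pos h, if_pos h]
      have h3 : (((v j).natAbs : ℕ) : ℝ) = (v j : ℝ) := by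
        have h4 : (((v j).natAbs : ℕ) : ℤ) = v j := by omega
        rw [← Int.cast_natCast, h4]
      rw [h3]
      ring
    · rw [if_neg h, if_neg h]
      have h3 : (((v j).natAbs : ℕ) : ℝ) = -(v j : ℝ) := by
        have h4 : (((v j).natAbs : ℕ) : ℤ) = - v j := by omega
        rw [← Int.cast_natCast, h4, Int.cast_neg]
      rw [h3]
      ring

/-- **the inductive step** -/
theorem WB_step (m : ℕ) (ih : ∀ r ≤ m, ∃ κ g0, WB r κ g0) : ∃ κ g0, WB (m + 1) κ g0 := by
  classical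
  -- common constants for the smaller cases
  choose! κ0 g00 hWB0 using ih
  obtain ⟨κ', hκ'⟩ : ∃ κ', κ' = ∑ r ∈ range (m + 1), κ0 r := ⟨_, rfl⟩
  obtain ⟨g0', hg0'⟩ : ∃ g0', g0' = ∑ r ∈ range (m + 1), g00 r + 1 := ⟨_, rfl⟩
  have hWB : ∀ r ≤ m, WB r κ' g0' := by
    intro r hr
    apply (hWB0 r hr).mono
    · rw [hκ']
      exact Finset.single_le_sum (fun i _ => Nat.zero_le _) (Finset.mem_range.mpr (by omega))
    · rw [hg0']
      exact (Finset.single_le_sum (f := g00) (fun i _ => Nat.zero_le _)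
        (Finset.mem_range.mpr (by omega))).trans (Nat.le_succ _)
    · omega
  -- growth of the parameters
  obtain ⟨E, g1, hE⟩ := ((PolyB.const 2).mul (polyB_dd m)).add
    (PolyB.id.mul ((PolyB.const (m + 1)).mul (polyB_SS m)))
  obtain ⟨g2, hg2⟩ := ((polyB_L0 m).add (polyB_dd m)).le_two_pow
  obtain ⟨g3, hg3⟩ := ((PolyB.const 2).mul ((PolyB.const (m + 1)).mul (polyB_SS m))).le_two_pow
  refine ⟨E * (κ' + 1) + 1, max (max g1 g2) (max g3 (max g0' 2)), ?_⟩
  intro g hg x y b hx hy hb hb0 hind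
  have hgg1 : g1 ≤ g := (le_max_left _ _).trans ((le_max_left _ _).trans hg)
  have hgg2 : g2 ≤ g := (le_max_right _ _).trans ((le_max_left _ _).trans hg)
  have hgg3 : g3 ≤ g := (le_max_left _ _).trans ((le_max_right _ _).trans hg)
  have hgg0 : g0' ≤ g :=
    (le_max_left _ _).trans ((le_max_right _ _).trans ((le_max_right _ _).trans hg))
  have hgge : 2 ≤ g :=
    (le_max_right _ _).trans ((le_max_right _ _).trans ((le_max_right _ _).trans hg))
  have hE' := hE g hgg1
  have hbig1 := hg2 g hgg2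
  have hbig2 := hg3 g hgg3
  simp only at hE' hbig1 hbig2
  obtain ⟨g', hg'⟩ : ∃ g', g' = g * ((m + 1) * SS m g) := ⟨_, rfl⟩
  rw [← hg'] at hE'
  have hd2 : 2 * dd m g ≤ g ^ E := le_trans (Nat.le_add_right _ _) hE'
  have hgE : g' ≤ g ^ E := le_trans (Nat.le_add_left _ _) hE'
  have hS1 := SS_pos m g
  have hSm : m + 1 ≤ SS m g := by
    unfold SS
    have h1 : 1 ≤ LL m g ^ (m + 1) := Nat.one_le_pow _ _ (LL_pos m g (by omega))
    have h2 : m + 1 ≤ 2 ^ ((m + 2) * (m + 1)) := by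
      calc m + 1 ≤ 2 ^ (m + 1) := Nat.lt_two_pow_self.le
        _ ≤ 2 ^ ((m + 2) * (m + 1)) := Nat.pow_le_pow_right (by norm_num)
            (Nat.le_mul_of_pos_left _ (by omega))
    nlinarith
  have hgg' : g ≤ g' := by
    rw [hg']
    exact Nat.le_mul_of_pos_right _ (Nat.mul_pos (by omega) hS1)
  -- the final bound for exponents
  have hfin1 : 2 * dd m g ≤ g ^ (E * (κ' + 1) + 1) := by
    refine hd2.trans (Nat.pow_le_pow_right (by omega) ?_)
    nlinarith [Nat.zero_le (E * κ')]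
  have hfin2 : g' ^ κ' + g' ≤ g ^ (E * (κ' + 1) + 1) := by
    have h1 : g' ^ κ' ≤ g ^ (E * (κ' + 1)) := by
      calc g' ^ κ' ≤ (g ^ E) ^ κ' := Nat.pow_le_pow_left hgE _
        _ = g ^ (E * κ') := by rw [← pow_mul]
        _ ≤ g ^ (E * (κ' + 1)) := Nat.pow_le_pow_right (by omega) (Nat.mul_le_mul_left _ (by omega))
    have h2 : g' ≤ g ^ (E * (κ' + 1)) := by
      refine hgE.trans (Nat.pow_le_pow_right (by omega) ?_)
      nlinarith [Nat.zero_le (E * κ')]
    calc g' ^ κ' + g' ≤ g ^ (E * (κ' + 1)) * 2 := by omega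
      _ ≤ g ^ (E * (κ' + 1)) * g := Nat.mul_le_mul_left _ hgge
      _ = _ := by rw [pow_succ]
  -- the distinguished coordinate
  obtain ⟨j0, _, hj0⟩ := Finset.exists_max_image (Finset.univ : Finset (Fin (m + 1)))
    (fun j => |b j|) ⟨0, Finset.mem_univ _⟩
  have hbj0 : b j0 ≠ 0 := by
    intro h
    apply hb0
    funext j
    have h1 := hj0 j (Finset.mem_univ j)
    rw [h, abs_zero] at h1
    exact abs_eq_zero.mp (le_antisymm h1 (abs_nonneg _))
  let e : Option {j : Fin (m + 1) // j ≠ j0} ≃ Fin (m + 1) := Equiv.optionSubtypeNe j0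
  have hcard : Fintype.card {j : Fin (m + 1) // j ≠ j0} = m := by
    have h1 : Fintype.card (Option {j : Fin (m + 1) // j ≠ j0}) = m + 1 := by
      rw [Fintype.card_congr e, Fintype.card_fin]
    rw [Fintype.card_option] at h1
    omega
  have hnone : e none = j0 := by simp [e]
  have hLam : Lam (x ∘ e) (y ∘ e) (b ∘ e) = Lam x y b := by
    unfold Lam
    exact Fintype.sum_equiv e _ _ (fun j => rfl)
  have hinde : ∀ s : Option {j : Fin (m + 1) // j ≠ j0} → ℤ,
      ∏ j, (((x ∘ e) j : ℝ) / ((y ∘ e) j : ℝ)) ^ (s j) = 1 → s = 0 := by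
    intro s hs
    have h2 := hind (s ∘ e.symm) (by
      rw [← hs]
      apply Fintype.prod_equiv e.symm
      intro j
      simp)
    funext j
    have := congrFun h2 (e j)
    simpa using this
  by_cases hsmall : |Lam x y b| ≤ (1 / 2) ^ (2 * dd m g)
  swap
  · rw [not_le] at hsmall
    refine le_trans ?_ hsmall.le
    exact pow_le_pow_of_le_one (by norm_num) (by norm_num) hfin1
  obtain ⟨D, hD1, hD2, hD3⟩ := dichotomy (τ := {j : Fin (m + 1) // j ≠ j0}) g (by omega)
    (by rw [hcard]; exact hbig1) (by rw [hcard]; exact hbig2) (x ∘ e) (y ∘ e)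
    (fun j => hx _) (fun j => hy _) (b ∘ e)
    (by rw [Function.comp_apply, hnone]; exact hbj0)
    (by intro j; rw [Function.comp_apply, Function.comp_apply, hnone]; exact hj0 _ (Finset.mem_univ _))
    (by rw [Function.comp_apply]; exact hb _) hinde
    (by rw [hLam, hcard]; exact hsmall)
  rw [hcard] at hD1 hD3
  have hSg : SS m g ≤ 2 ^ g := by
    have : SS m g ≤ 2 * ((m + 1) * SS m g) := by nlinarith
    exact this.trans hbig2
  obtain ⟨r, v, q, p, hr, hvD, hvli, hq0, hqp, hqb, hpb⟩ := descent D (2 ^ g)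
    (by
      intro v hv j
      have h1 := hD1 v hv j
      have h2 : ((SS m g : ℕ) : ℤ) ≤ ((2 ^ g : ℕ) : ℤ) := by exact_mod_cast hSg
      exact h1.le.trans h2) (b ∘ e)
    (by
      intro j
      have := hb (e j)
      push_cast
      exact this) hD2
  have hrm : r ≤ m := by rw [hr]; exact hD3
  -- size of the determinants
  have hfac : r.factorial * (2 ^ g) ^ r ≤ 2 ^ g' := by
    have h1 : r.factorial ≤ 2 ^ (m * m) := by
      calc r.factorial ≤ m.factorial := Nat.factorial_le hrm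
        _ ≤ m ^ m := Nat.factorial_le_pow m
        _ ≤ (2 ^ m) ^ m := Nat.pow_le_pow_left Nat.lt_two_pow_self.le _
        _ = 2 ^ (m * m) := by rw [← pow_mul]
    have h2 : (2 ^ g) ^ r ≤ 2 ^ (g * m) := by
      rw [← pow_mul]
      exact Nat.pow_le_pow_right (by norm_num) (Nat.mul_le_mul_left _ hrm)
    calc r.factorial * (2 ^ g) ^ r ≤ 2 ^ (m * m) * 2 ^ (g * m) := Nat.mul_le_mul h1 h2
      _ = 2 ^ (m * m + g * m) := by rw [← pow_add]
      _ ≤ 2 ^ g' := by
          apply Nat.pow_le_pow_right (by norm_num)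
          rw [hg']
          have h3 : (m + 1) * (m + 1) ≤ (m + 1) * SS m g := Nat.mul_le_mul_left _ hSm
          nlinarith
  have hqb' : |q| ≤ 2 ^ g' := by
    refine hqb.trans ?_
    exact_mod_cast hfac
  have hpb' : ∀ k, |p k| ≤ 2 ^ g' := by
    intro k
    refine (hpb k).trans ?_
    exact_mod_cast hfac
  have hcardO : Fintype.card (Option {j : Fin (m + 1) // j ≠ j0}) = m + 1 := by
    rw [Fintype.card_option, hcard]
  choose x' y' hx' hy' hxy' hlog' using fun k => prod_zpow_split (x ∘ e) (y ∘ e)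
    (fun j => (hx _).1) (fun j => (hy _).1) (v k) g (SS m g) (fun j => (hx _).2)
    (fun j => (hy _).2) (fun j => (hD1 _ (hvD k) j).le)
  rw [hcardO, ← hg'] at hx' hy'
  have hpne : p ≠ 0 := by
    intro h0
    have h1 := hqp none
    rw [h0] at h1
    simp only [Pi.zero_apply, zero_mul, Finset.sum_const_zero, Function.comp_apply, hnone] at h1
    rcases mul_eq_zero.mp h1 with h2 | h2
    · exact hq0 h2
    · exact hbj0 h2
  have hind' : ∀ t : Fin r → ℤ, ∏ k, ((x' k : ℝ) / (y' k : ℝ)) ^ (t k) = 1 → t = 0 := by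
    intro t ht
    have h1 : ∏ k, ((x' k : ℝ) / (y' k : ℝ)) ^ (t k) =
        ∏ j, (((x ∘ e) j : ℝ) / ((y ∘ e) j : ℝ)) ^ (∑ k, v k j * t k) := by
      have hne : ∀ j, ((x ∘ e) j : ℝ) / ((y ∘ e) j : ℝ) ≠ 0 := by
        intro j
        have h2 := (hx (e j)).1
        have h3 := (hy (e j)).1
        simp only [Function.comp_apply]
        positivity
      have h2 : ∀ (s : Finset (Fin r)) (z : ℝ), z ≠ 0 → ∀ w : Fin r → ℤ,
          z ^ (∑ k ∈ s, w k) = ∏ k ∈ s, z ^ (w k) := by
        intro s z hz w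
        induction s using Finset.induction_on with
        | empty => simp
        | insert k s hk ih => rw [Finset.sum_insert hk, Finset.prod_insert hk, zpow_add₀ hz, ih]
      rw [Finset.prod_congr rfl (fun j _ => h2 Finset.univ _ (hne j) _), Finset.prod_comm]
      apply Finset.prod_congr rfl
      intro k _
      rw [hxy' k, ← Finset.prod_zpow]
      apply Finset.prod_congr rfl
      intro j _
      rw [zpow_mul]
    rw [h1] at ht
    have h2 := hinde _ ht
    rw [Fintype.linearIndependent_iff] at hvli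
    funext k
    have h3 := hvli (fun k => (t k : ℚ)) (by
      funext j
      have h4 := congrFun h2 j
      rw [Finset.sum_apply]
      simp only [Pi.smul_apply, smul_eq_mul, qc, Pi.zero_apply] at h4 ⊢
      have h5 : (((∑ k, v k j * t k : ℤ)) : ℚ) = 0 := by
        rw [h4]
        norm_num
      push_cast at h5
      rw [← h5]
      apply Finset.sum_congr rfl
      intro k _
      ring) k
    exact_mod_cast h3
  have hmain := hWB r hrm g' (hgg0.trans hgg') x' y' p hx' hy' hpb' hpne hind'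
  have hLam' : Lam x' y' p = q * Lam x y b := by
    rw [← hLam]
    unfold Lam
    rw [Finset.mul_sum]
    have h1 : ∀ k, (p k : ℝ) * (Real.log (x' k) - Real.log (y' k)) =
        ∑ j, (p k : ℝ) * ((v k j : ℝ) * (Real.log ((x ∘ e) j) - Real.log ((y ∘ e) j))) := by
      intro k
      rw [hlog' k, Finset.mul_sum]
    rw [Finset.sum_congr rfl (fun k _ => h1 k), Finset.sum_comm]
    apply Finset.sum_congr rfl
    intro j _
    have h2 : ((q * (b ∘ e) j : ℤ) : ℝ) = ((∑ k, p k * v k j : ℤ) : ℝ) := by rw [hqp j]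
    push_cast at h2
    rw [← mul_assoc, h2, Finset.sum_mul]
    apply Finset.sum_congr rfl
    intro k _
    ring
  rw [hLam', abs_mul] at hmain
  have hqR : |(q : ℝ)| ≤ 2 ^ g' := by
    rw [← Int.cast_abs]
    exact_mod_cast hqb'
  have h1 : (1 / 2 : ℝ) ^ (g' ^ κ' + g') ≤ |Lam x y b| := by
    rw [pow_add]
    have h2 : (1 / 2 : ℝ) ^ (g' ^ κ') ≤ 2 ^ g' * |Lam x y b| :=
      hmain.trans (mul_le_mul_of_nonneg_right hqR (abs_nonneg _))
    calc (1 / 2 : ℝ) ^ (g' ^ κ') * (1 / 2) ^ g' ≤ (2 ^ g' * |Lam x y b|) * (1 / 2) ^ g' :=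
          mul_le_mul_of_nonneg_right h2 (by positivity)
      _ = |Lam x y b| * (2 * (1 / 2)) ^ g' := by rw [mul_pow]; ring
      _ = |Lam x y b| := by norm_num
  refine le_trans ?_ h1
  exact pow_le_pow_of_le_one (by norm_num) (by norm_num) hfin2

/-- **weak lower bound for linear forms in logarithms of rational numbers** -/
theorem WB_all (n : ℕ) : ∃ κ g0, WB n κ g0 := by
  induction n using Nat.strong_induction_on with
  | _ n ih =>
    rcases n with _ | m
    · refine ⟨0, 0, ?_⟩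
      intro g _ x y b _ _ _ hb0 _
      exact absurd (Subsingleton.elim b 0) hb0
    · exact WB_step m (fun r hr => ih r (by omega))

end Pool.Agent.Y913.Bk
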