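import Pool.Agent.Y913.Bk.Pts

/-!
Archimedean linear forms in logarithms (weak form), VI: application of the zero estimate.
-/

set_option autoImplicit false

namespace Pool.Agent.Y913.Bk

open Finset MvPolynomial Pool.Agent.H364R2 Pool.Agent.H301R2.ZG

variable {τ : Type} [Fintype τ] {x y : Option τ → ℕ} (hx : ∀ j, 1 ≤ x j) (hy : ∀ j, 1 ≤ y j)
  (b : Option τ → ℤ)

include hx hy in
/-- the full rank case -/
theorem eq_bot_of_full [DecidableEq τ] {P : Ideal (MvPolynomial (Option τ) ℂ)}
    (hone : gone ad ∈ ZP ad P) (hb0 : b none ≠ 0)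
    (hind : ∀ s : Option τ → ℤ, ∏ j, ((x j : ℝ) / (y j : ℝ)) ^ (s j) = 1 → s = 0)
    (V : Submodule ℚ (Option τ → ℚ))
    (hV : V ≤ Submodule.span ℚ (qc '' (Kst hx hy b P : Set (Option τ → ℤ))))
    (hfull : Module.finrank ℚ V = Fintype.card (Option τ)) : P = ⊥ := by
  classical
  have hVtop : V = ⊤ := by
    apply Submodule.eq_top_of_finrank_eq
    rw [hfull, Module.finrank_fintype_fun_eq_card]
  obtain ⟨N, hN, hw⟩ := exists_mul_mem_fin (Kst hx hy b P)
    (fun j : Option τ => (Pi.single j 1 : Option τ → ℚ))
    (fun j => hV (by rw [hVtop]; exact Submodule.mem_top))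
  choose w hwK hwv using hw
  have hw' : ∀ j, w j = Pi.single j (N : ℤ) := by
    intro j
    apply qc_inj
    rw [hwv]
    funext i
    simp only [Pi.smul_apply, smul_eq_mul, qc, Pi.single_apply]
    split_ifs <;> simp
  have hNs : ∀ s : Option τ → ℤ, (N : ℤ) • s ∈ Kst hx hy b P := by
    intro s
    have h1 : (N : ℤ) • s = ∑ j, s j • w j := by
      funext i
      rw [Finset.sum_apply]
      simp only [Pi.smul_apply, smul_eq_mul, hw', Pi.single_apply]
      rw [Finset.sum_eq_single i]
      · simp; ring
      · intro j _ hj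
        rw [if_neg (fun h => hj h.symm), mul_zero]
      · intro h; exact absurd (Finset.mem_univ i) h
    rw [h1]
    exact AddSubgroup.sum_mem _ (fun j _ => AddSubgroup.zsmul_mem _ (hwK j) _)
  have hNC : (N : ℂ) ≠ 0 := by exact_mod_cast hN.ne'
  have hbC : (b none : ℂ) ≠ 0 := by exact_mod_cast hb0
  rw [eq_bot_iff]
  intro f hf
  rw [Ideal.mem_bot]
  -- the multiplicative coordinate takes infinitely many values over each additive point
  have hval : ∀ s : Option τ → ℤ, zt x y b s none =
      ((∏ j, ((x j : ℝ) / (y j : ℝ)) ^ (s j) : ℝ) : ℂ) := by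
    intro s
    rw [zt_none]
    push_cast
    rfl
  have hinjC : Function.Injective (fun s : Option τ → ℤ => zt x y b s none) := by
    intro s t hst
    simp only [hval] at hst
    have h1 : (∏ j, ((x j : ℝ) / (y j : ℝ)) ^ (s j)) = ∏ j, ((x j : ℝ) / (y j : ℝ)) ^ (t j) := by
      exact_mod_cast hst
    have hne : ∀ j, (x j : ℝ) / (y j : ℝ) ≠ 0 := by
      intro j
      have h2 := hx j
      have h3 := hy j
      positivity
    have h2 : ∏ j, ((x j : ℝ) / (y j : ℝ)) ^ ((s - t) j) = 1 := by
      have h3 : ∏ j, ((x j : ℝ) / (y j : ℝ)) ^ ((s - t) j) =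
          (∏ j, ((x j : ℝ) / (y j : ℝ)) ^ (s j)) / ∏ j, ((x j : ℝ) / (y j : ℝ)) ^ (t j) := by
        rw [← Finset.prod_div_distrib]
        apply Finset.prod_congr rfl
        intro j _
        rw [Pi.sub_apply, zpow_sub₀ (hne j)]
      rw [h3, h1, div_self]
      exact Finset.prod_ne_zero_iff.mpr (fun j _ => zpow_ne_zero _ (hne j))
    exact sub_eq_zero.mp (hind _ h2)
  have hbne : b ≠ 0 := by
    intro h
    apply hb0
    rw [h]
    rfl
  have hfib : ∀ (k : τ → ℤ) (z : ℂ),
      eval (fun j : Option τ => j.elim z (fun i => (N : ℂ) * (b none) * (k i))) f = 0 := by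
    intro k
    let g : Polynomial ℂ := aeval (fun j : Option τ => j.elim Polynomial.X
      (fun i => Polynomial.C ((N : ℂ) * (b none) * (k i)))) f
    have hg : ∀ z : ℂ, Polynomial.eval z g =
        eval (fun j : Option τ => j.elim z (fun i => (N : ℂ) * (b none) * (k i))) f := by
      intro z
      simp only [g]
      rw [← Polynomial.coe_evalRingHom, aeval_def, eval₂_comp_left]
      have e1 : (fun j : Option τ => (Polynomial.evalRingHom z) (j.elim Polynomial.X
        (fun i => Polynomial.C ((N : ℂ) * (b none) * (k i))))) =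
        (fun j : Option τ => j.elim z (fun i => (N : ℂ) * (b none) * (k i))) := by
        funext j
        rcases j with _ | i
        · simp
        · simp
      have e2 : (Polynomial.evalRingHom z).comp (algebraMap ℂ (Polynomial ℂ)) = RingHom.id ℂ := by
        ext c <;> simp
      rw [e2]
      unfold MvPolynomial.eval
      rw [← e1]
      rfl
    have hg0 : g = 0 := by
      apply Polynomial.eq_zero_of_infinite_isRoot
      let s0 : ℤ → Option τ → ℤ := fun t => (N : ℤ) • ((fun j : Option τ => j.elim 0 k) + t • b)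
      apply Set.infinite_of_injective_forall_mem (f := fun t : ℤ => zt x y b (s0 t) none)
      · intro t t' h
        have h1 := hinjC h
        simp only [s0] at h1
        have hN0 : (N : ℤ) ≠ 0 := by exact_mod_cast hN.ne'
        have h2 := congrFun h1 none
        simp only [Pi.smul_apply, Pi.add_apply, smul_eq_mul, Option.elim_none, zero_add] at h2
        have h3 := mul_left_cancel₀ hN0 h2
        exact mul_right_cancel₀ hb0 h3
      · intro t
        show Polynomial.IsRoot g _
        rw [Polynomial.IsRoot, hg]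
        have h1 := (zt_mem_ZP hx hy b hone (hNs ((fun j : Option τ => j.elim 0 k) + t • b))).2 f hf
        rw [← h1]
        congr 2
        funext j
        rcases j with _ | i
        · rfl
        · rw [zt_some]
          simp only [Option.elim_some, uu, Pi.smul_apply, Pi.add_apply, smul_eq_mul,
            Option.elim_none]
          push_cast
          ring
    intro z
    rw [← hg, hg0, Polynomial.eval_zero]
  apply MvPolynomial.funext_set (fun j : Option τ => j.elim Set.univ
    (fun _ => {z : ℂ | ∃ k : ℤ, z = (N : ℂ) * (b none) * k}))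
  · intro j
    rcases j with _ | i
    · exact Set.infinite_univ
    · apply Set.infinite_of_injective_forall_mem (f := fun k : ℤ => (N : ℂ) * (b none) * (k : ℂ))
      · intro k k' h
        have := mul_left_cancel₀ (mul_ne_zero hNC hbC) h
        exact_mod_cast this
      · intro k
        exact ⟨k, rfl⟩
  · intro z hz
    rw [map_zero]
    have h1 : ∀ i : τ, ∃ k : ℤ, z (some i) = (N : ℂ) * (b none) * k := fun i =>
      hz (some i) (Set.mem_univ _)
    choose k hk using h1
    rw [← hfib k (z none)]
    congr 2
    funext j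
    rcases j with _ | i
    · rfl
    · exact hk i

/-- exponents of the monomials of the auxiliary polynomial -/
def exf {L0 L : ℕ} (i : (τ → Fin L0) × Fin L) : Option τ → ℕ :=
  fun j => j.elim (i.2 : ℕ) (fun k => (i.1 k : ℕ))

omit [Fintype τ] in
lemma exf_inj {L0 L : ℕ} {i i' : (τ → Fin L0) × Fin L} (h : exf i = exf i') : i = i' := by
  apply Prod.ext
  · funext k
    exact Fin.ext (congrFun h (some k))
  · exact Fin.ext (congrFun h none)

/-- the auxiliary polynomial -/
noncomputable def polyF [DecidableEq τ] {L0 L : ℕ} (G : ((τ → Fin L0) × Fin L) → ℤ) :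
    MvPolynomial (Option τ) ℂ :=
  ∑ i, monomial (Finsupp.equivFunOnFinite.symm (exf i)) (G i : ℂ)

lemma coeff_polyF [DecidableEq τ] {L0 L : ℕ} (G : ((τ → Fin L0) × Fin L) → ℤ)
    (v : (τ → Fin L0) × Fin L) :
    coeff (Finsupp.equivFunOnFinite.symm (exf v)) (polyF G) = (G v : ℂ) := by
  classical
  unfold polyF
  rw [coeff_sum, Finset.sum_eq_single v]
  · rw [coeff_monomial, if_pos rfl]
  · intro u _ huv
    rw [coeff_monomial, if_neg]
    intro h
    exact huv (exf_inj (Finsupp.equivFunOnFinite.symm.injective h))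
  · intro h; exact absurd (Finset.mem_univ v) h

lemma polyF_ne_zero [DecidableEq τ] {L0 L : ℕ} {G : ((τ → Fin L0) × Fin L) → ℤ} (hG : G ≠ 0) :
    polyF G ≠ 0 := by
  intro h
  apply hG
  funext v
  have := coeff_polyF G v
  rw [h, coeff_zero] at this
  exact_mod_cast this.symm

lemma polyF_mem_box [DecidableEq τ] {L0 L : ℕ} (G : ((τ → Fin L0) × Fin L) → ℤ) :
    polyF G ∈ box ℂ (fun j : Option τ => j.elim L (fun _ => L0)) 1 := by
  classical
  unfold polyF
  apply Submodule.sum_mem
  intro u _
  rw [mem_box]
  intro m hm j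
  have h1 := support_monomial_subset hm
  rw [Finset.mem_singleton] at h1
  subst h1
  simp only [Finsupp.equivFunOnFinite_symm_apply_apply]
  rcases j with _ | k
  · have := u.2.isLt
    simp only [exf, Option.elim_none]
    omega
  · have := (u.1 k).isLt
    simp only [exf, Option.elim_some]
    omega

lemma eval_polyF [DecidableEq τ] {L0 L : ℕ} (G : ((τ → Fin L0) × Fin L) → ℤ)
    (z : Option τ → ℂ) :
    eval z (polyF G) = ∑ i, (G i : ℂ) * ((∏ k, z (some k) ^ (i.1 k : ℕ)) * z none ^ (i.2 : ℕ)) := by
  unfold polyF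
  rw [map_sum]
  apply Finset.sum_congr rfl
  intro u _
  rw [eval_monomial, Finsupp.prod_fintype]
  · simp only [Finsupp.equivFunOnFinite_symm_apply_apply, exf]
    rw [Fintype.prod_option]
    simp only [Option.elim_none, Option.elim_some]
    ring
  · intro i; simp

end Pool.Agent.Y913.Bk
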